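import Pool.Agent.Lib.Pc41d74.Disc

/-!
# The degree-two class of a character, and its restrictions
-/

open Set Topology Filter
open scoped ComplexConjugate InnerProductSpace Matrix

noncomputable section

namespace Pool.Agent.Lib.Pc41d74

namespace UnitaryAction

variable {G : Type} [Group G] [TopologicalSpace G] {κ ν : Type}
  [Fintype κ] [DecidableEq κ] [Fintype ν] [DecidableEq ν] (A : UnitaryAction G κ ν)

/-- The representation `ι` contains the character `χ` as the coordinate line of index `i₀`. -/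
structure HasChar (i₀ : κ) (χ : G → Circle) : Prop where
  entry : ∀ g j, (A.ι g : Matrix κ κ ℂ) i₀ j = if j = i₀ then (χ g : ℂ) else 0

variable {A} {i₀ : κ} {χ : G → Circle}

lemma HasChar.frameAct (hχ : A.HasChar i₀ χ) (g : G) (e : κ → Ell2) :
    A.frameAct g e i₀ = (χ g : ℂ) • e i₀ := by
  simp [UnitaryAction.frameAct, hχ.entry]

/-- The vector of index `i₀` of a frame. -/
def frameVec (i₀ : κ) : C(Frame κ, Sph Ell2) :=
  ⟨fun e => ⟨e.1 i₀, mem_sphere_zero_iff_norm.2 (e.2.1 i₀)⟩,
    Continuous.subtype_mk ((continuous_apply i₀).comp continuous_subtype_val) _⟩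

/-- The map from the classifying space to the projective space given by the character. -/
def lineMap (hχ : A.HasChar i₀ χ) : C(A.BG, Proj Ell2) where
  toFun := Quotient.map' (s₁ := A.classifyingSetoid) (s₂ := phaseSetoid Ell2) (frameVec i₀)
    (by
      rintro e e' ⟨g, hg⟩
      refine ⟨χ g, ?_⟩
      show (χ g : ℂ) • e.1 i₀ = e'.1 i₀
      rw [hg, hχ.frameAct])
  continuous_toFun := Continuous.quotient_map' (frameVec i₀).continuous _

/-- The winding cocycle on the classifying space. -/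
def charCocycle (hχ : A.HasChar i₀ χ) : Cocycle 2 A.BG :=
  ⟨cochainPullback 2 (lineMap hχ) qc, fun σ => by
    rw [coboundary_cochainPullback, qc_cocycle]
    rfl⟩

/-- The class of the character in `H^2_G(pt)`. -/
def charClass (hχ : A.HasChar i₀ χ) : H 2 A.BG :=
  Quotient.mk (cohomologous 2 A.BG) (charCocycle hχ)

lemma restrict_charClass (hχ : A.HasChar i₀ χ) (S : Set (ν → ℂ)) :
    A.restrict 2 S (charClass hχ) = 0 ↔
      ∃ ψ : Cochain 1 (A.Borel S),
        coboundary 1 (A.Borel S) ψ = cochainPullback 2 ((lineMap hχ).comp (A.toBG S)) qc := by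
  have h : (A.restrict 2 S (charClass hχ) = 0) ↔
      (Quotient.mk (cohomologous 2 (A.Borel S)) (cocyclePullback 2 (A.toBG S) (charCocycle hχ)) =
        Quotient.mk (cohomologous 2 (A.Borel S)) (zeroCocycle 2 (A.Borel S))) := Iff.rfl
  rw [h, Quotient.eq]
  show (∃ ψ : Cochain 1 (A.Borel S), coboundary 1 (A.Borel S) ψ = fun σ =>
    cochainPullback 2 ((lineMap hχ).comp (A.toBG S)) qc σ - 0) ↔ _
  simp only [sub_zero]

/-- The class of a character vanishes on any set where there is a semi-invariant function of that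
character without zeros. -/
theorem restrict_charClass_eq_zero (hχ : A.HasChar i₀ χ) (S : Set (ν → ℂ))
    (D : (ν → ℂ) → ℂ) (hD : Continuous D) (hD0 : ∀ z ∈ S, D z ≠ 0)
    (hDχ : ∀ g z, D (A.act g z) = χ g * D z) :
    A.restrict 2 S (charClass hχ) = 0 := by
  rw [restrict_charClass]
  -- the map to the sphere
  have hs : ∀ p : Frame κ × S,
      (conj (D p.2 / (‖D p.2‖ : ℂ)) • p.1.1 i₀ : Ell2) ∈ Metric.sphere (0 : Ell2) 1 := by
    intro p
    rw [mem_sphere_zero_iff_norm, norm_smul, p.1.2.1 i₀, mul_one, Complex.norm_conj, norm_div,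
      Complex.norm_real, norm_norm]
    exact div_self (norm_ne_zero_iff.2 (hD0 _ p.2.2))
  let f : Frame κ × S → Sph Ell2 := fun p => ⟨_, hs p⟩
  have hf : Continuous f := by
    have h1 : Continuous (fun p : Frame κ × S => D p.2) :=
      hD.comp (continuous_subtype_val.comp continuous_snd)
    have h2 : Continuous (fun p : Frame κ × S => conj (D p.2 / (‖D p.2‖ : ℂ))) := by
      refine Complex.continuous_conj.comp ?_
      refine h1.div (Complex.continuous_ofReal.comp h1.norm) ?_
      intro p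
      exact_mod_cast norm_ne_zero_iff.2 (hD0 _ p.2.2)
    have h3 : Continuous (fun p : Frame κ × S => (p.1.1 i₀ : Ell2)) :=
      (continuous_apply i₀).comp (continuous_subtype_val.comp continuous_fst)
    exact Continuous.subtype_mk (h2.smul h3) _
  let s : C(A.Borel S, Sph Ell2) :=
    ⟨Quotient.lift f (by
      rintro p q ⟨g, h1, h2⟩
      apply Subtype.ext
      show conj (D p.2 / (‖D p.2‖ : ℂ)) • p.1.1 i₀ = conj (D q.2 / (‖D q.2‖ : ℂ)) • q.1.1 i₀
      rw [h1, h2, hDχ, hχ.frameAct, smul_smul, norm_mul, Circle.norm_coe, one_mul, mul_div_assoc,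
        map_mul, mul_comm (conj (χ g : ℂ)), mul_assoc, ← Complex.normSq_eq_conj_mul_self,
        Complex.normSq_eq_norm_sq, Circle.norm_coe]
      simp), hf.quotient_lift _⟩
  have hsl : pr.comp s = (lineMap hχ).comp (A.toBG S) := by
    ext1 x
    obtain ⟨p, rfl⟩ := Quotient.mk_surjective (s := A.borelSetoid S) x
    show pr (f p) = pr (frameVec i₀ p.1)
    symm
    rw [pr_eq_iff]
    refine ⟨⟨conj (D p.2 / (‖D p.2‖ : ℂ)), ?_⟩, rfl⟩
    refine mem_sphere_zero_iff_norm.2 ?_
    rw [Complex.norm_conj, norm_div, Complex.norm_real, norm_norm]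
    exact div_self (norm_ne_zero_iff.2 (hD0 _ p.2.2))
  refine ⟨cochainPullback 1 s qprim, ?_⟩
  rw [coboundary_cochainPullback, ← hsl]
  funext σ
  show coboundary 1 (Sph Ell2) qprim (s.comp σ) = qc ((pr.comp s).comp σ)
  rw [← qc_pr]
  rfl

/-- A criterion for the nonvanishing of the class of a character. -/
theorem restrict_charClass_ne_zero (hχ : A.HasChar i₀ χ) (S : Set (ν → ℂ))
    (x : C(Simplex 2, S)) (x₀ : S) (e : C(Simplex 2, Frame κ)) (e₀ : Frame κ)
    (hbd : ∀ (i : Fin 3) (s : Simplex 1), ∃ g : G,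
      (e (face i s)).1 = A.frameAct g e₀.1 ∧ (x (face i s) : ν → ℂ) = A.act g x₀)
    (q : Ell2) (he : ∀ t, (e t).1 i₀ = rot (e₀.1 i₀) q t) :
    A.restrict 2 S (charClass hχ) ≠ 0 := by
  intro h0
  rw [restrict_charClass] at h0
  obtain ⟨ψ, hψ⟩ := h0
  let mk : C(Frame κ × S, A.Borel S) :=
    ⟨Quotient.mk (A.borelSetoid S), continuous_quotient_mk'⟩
  let B' : C(Simplex 2, A.Borel S) := mk.comp (e.prodMk x)
  let A' : C(Simplex 2, A.Borel S) := ContinuousMap.const _ (mk (e₀, x₀))
  have hfaces : ∀ i : Fin 3, B'.comp (face i) = A'.comp (face i) := by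
    intro i
    ext1 s
    show mk (e (face i s), x (face i s)) = mk (e₀, x₀)
    refine (Quotient.sound ?_).symm
    obtain ⟨g, h1, h2⟩ := hbd i s
    exact ⟨g, h1, h2⟩
  have hd : coboundary 1 (A.Borel S) ψ B' = coboundary 1 (A.Borel S) ψ A' := by
    show ∑ i : Fin 3, (-1 : ℚ) ^ (i : ℕ) * ψ (B'.comp (face i)) =
      ∑ i : Fin 3, (-1 : ℚ) ^ (i : ℕ) * ψ (A'.comp (face i))
    simp only [hfaces]
  rw [hψ] at hd
  have hB : cochainPullback 2 ((lineMap hχ).comp (A.toBG S)) qc B' =
      qc (pr.comp ((frameVec i₀).comp e)) := rfl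
  have hA : cochainPullback 2 ((lineMap hχ).comp (A.toBG S)) qc A' =
      qc (pr.comp ((frameVec i₀).comp (ContinuousMap.const _ e₀))) := rfl
  have key := qc_disc (e₀.1 i₀) q (e₀.2.1 i₀) ((frameVec i₀).comp (ContinuousMap.const _ e₀))
    ((frameVec i₀).comp e) (fun t => rfl) (fun t => he t)
  rw [← hA, ← hB, hd, sub_self] at key
  exact zero_ne_one key

end UnitaryAction

end Pool.Agent.Lib.Pc41d74
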