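import Mathlib

/-!
# Equivariant cohomology of a linear action of a compact Lie group

* `H k X` is the `k`-th singular cohomology of the topological space `X` with rational
  coefficients.
* `UnitaryAction G κ ν` is a compact Lie group `G` together with a unitary action on `ℂ^ν`.
* `A.Borel S` is the Borel construction `EG ×_G S` of an invariant subset `S` of `ℂ^ν`, where the
  model of `EG` is the infinite Stiefel manifold of orthonormal `κ`-frames in `ℓ²`.
* `A.restrict k S : H k A.BG → H k (A.Borel S)` is the restriction map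
  `H^k_G(pt) → H^k_G(S)`; for `S` a level set of the moment map it is the Kirwan map.
-/

open Set Topology
open scoped Matrix ComplexConjugate

noncomputable section

namespace Pool.Agent.Lib.Pc41d74

/-! ### Singular cohomology with rational coefficients -/

/-- The standard topological `k`-simplex. -/
abbrev Simplex (k : ℕ) : Type := stdSimplex ℝ (Fin (k + 1))

/-- The inclusion of the `i`-th face of the standard simplex. -/
def face {k : ℕ} (i : Fin (k + 2)) : C(Simplex k, Simplex (k + 1)) :=
  ⟨stdSimplex.map (Fin.succAbove i), stdSimplex.continuous_map _⟩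

/-- Singular `k`-simplices of `X`. -/
abbrev Sing (k : ℕ) (X : Type) [TopologicalSpace X] : Type := C(Simplex k, X)

/-- Singular `k`-cochains of `X` with rational coefficients: functions on singular simplices. -/
abbrev Cochain (k : ℕ) (X : Type) [TopologicalSpace X] : Type := Sing k X → ℚ

/-- The singular coboundary. -/
def coboundary (k : ℕ) (X : Type) [TopologicalSpace X] (φ : Cochain k X) : Cochain (k + 1) X :=
  fun σ => ∑ i : Fin (k + 2), (-1) ^ (i : ℕ) * φ (σ.comp (face i))

/-- Singular cocycles. -/
def Cocycle (k : ℕ) (X : Type) [TopologicalSpace X] : Type :=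
  {φ : Cochain k X // ∀ σ, coboundary k X φ σ = 0}

/-- Being a singular coboundary. -/
def IsCoboundary : (k : ℕ) → (X : Type) → [TopologicalSpace X] → Cochain k X → Prop
  | 0, _, _, φ => ∀ σ, φ σ = 0
  | k + 1, X, _, φ => ∃ ψ : Cochain k X, coboundary k X ψ = φ

section

variable {X Y : Type} [TopologicalSpace X] [TopologicalSpace Y]

lemma coboundary_zero (k : ℕ) : coboundary k X (fun _ => 0) = fun _ => 0 := by
  funext σ
  simp [coboundary]

lemma coboundary_sub (k : ℕ) (φ ψ : Cochain k X) :
    coboundary k X (fun σ => φ σ - ψ σ) = fun σ => coboundary k X φ σ - coboundary k X ψ σ := by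
  funext σ
  simp only [coboundary, mul_sub, Finset.sum_sub_distrib]

lemma isCoboundary_zero (k : ℕ) : IsCoboundary k X (fun _ => 0) := by
  cases k with
  | zero => exact fun _ => rfl
  | succ k => exact ⟨fun _ => 0, coboundary_zero k⟩

lemma IsCoboundary.sub {k : ℕ} {φ ψ : Cochain k X} (hφ : IsCoboundary k X φ)
    (hψ : IsCoboundary k X ψ) : IsCoboundary k X (fun σ => φ σ - ψ σ) := by
  cases k with
  | zero =>
    intro σ
    have h1 : φ σ = 0 := hφ σ
    have h2 : ψ σ = 0 := hψ σ
    show φ σ - ψ σ = 0
    rw [h1, h2, sub_zero]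
  | succ k =>
    obtain ⟨a, rfl⟩ := hφ
    obtain ⟨b, rfl⟩ := hψ
    exact ⟨fun σ => a σ - b σ, coboundary_sub k a b⟩

end

/-- Two cocycles are cohomologous if their difference is a coboundary. -/
def cohomologous (k : ℕ) (X : Type) [TopologicalSpace X] : Setoid (Cocycle k X) where
  r φ ψ := IsCoboundary k X (fun σ => φ.1 σ - ψ.1 σ)
  iseqv :=
    { refl := fun φ => by
        simpa using isCoboundary_zero (X := X) k
      symm := fun {φ ψ} h => by
        simpa using (isCoboundary_zero (X := X) k).sub h
      trans := fun {φ ψ χ} h h' => by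
        simpa using h.sub ((isCoboundary_zero (X := X) k).sub h') }

/-- Singular cohomology with rational coefficients: cocycles modulo coboundaries. -/
def H (k : ℕ) (X : Type) [TopologicalSpace X] : Type := Quotient (cohomologous k X)

/-- The cocycle zero. -/
def zeroCocycle (k : ℕ) (X : Type) [TopologicalSpace X] : Cocycle k X :=
  ⟨fun _ => 0, fun σ => by rw [coboundary_zero]⟩

instance (k : ℕ) (X : Type) [TopologicalSpace X] : Zero (H k X) :=
  ⟨Quotient.mk (cohomologous k X) (zeroCocycle k X)⟩

section Pullback

variable {X Y : Type} [TopologicalSpace X] [TopologicalSpace Y]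

/-- Pulling back singular cochains along a continuous map. -/
def cochainPullback (k : ℕ) (f : C(X, Y)) (φ : Cochain k Y) : Cochain k X :=
  fun σ => φ (f.comp σ)

lemma coboundary_cochainPullback (k : ℕ) (f : C(X, Y)) (φ : Cochain k Y) :
    coboundary k X (cochainPullback k f φ) = cochainPullback (k + 1) f (coboundary k Y φ) := rfl

/-- Pulling back singular cocycles along a continuous map. -/
def cocyclePullback (k : ℕ) (f : C(X, Y)) (φ : Cocycle k Y) : Cocycle k X :=
  ⟨cochainPullback k f φ.1, fun σ => φ.2 (f.comp σ)⟩

lemma IsCoboundary.pullback {k : ℕ} (f : C(X, Y)) {φ : Cochain k Y} (hφ : IsCoboundary k Y φ) :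
    IsCoboundary k X (cochainPullback k f φ) := by
  cases k with
  | zero => exact fun σ => hφ (f.comp σ)
  | succ k =>
    obtain ⟨ψ, rfl⟩ := hφ
    exact ⟨cochainPullback k f ψ, rfl⟩

/-- The map induced in cohomology by a continuous map. -/
def pullback (k : ℕ) (f : C(X, Y)) : H k Y → H k X :=
  Quotient.map' (s₁ := cohomologous k Y) (s₂ := cohomologous k X) (cocyclePullback k f)
    (fun _ _ h => IsCoboundary.pullback f h)

end Pullback

/-! ### Compact Lie groups acting unitarily -/

/-- The Hilbert space of square summable sequences. -/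
abbrev Ell2 : Type := lp (fun _ : ℕ => ℂ) 2

/-- The infinite Stiefel manifold of orthonormal families indexed by `κ` in the Hilbert space of
square summable sequences.  It is contractible, and the unitary group of `κ` acts freely on it. -/
abbrev Frame (κ : Type) : Type := {e : κ → Ell2 // Orthonormal ℂ e}

/-- The standard symplectic form on `ℂ^ν`. -/
def omega {ν : Type} [Fintype ν] (u v : ν → ℂ) : ℝ := (star u ⬝ᵥ v).im

/-- A linear unitary action of a compact Lie group `G` on `ℂ^ν`.

The group `G` (assumed to be a compact topological group) is a Lie group because it has the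
faithful unitary representation `ι` in dimension `κ`; its Lie algebra `lie` is the real vector
space of all matrices `ξ` such that `exp (t ξ)` belongs to `G` for all real `t`.
The action is given by the unitary representation `ρ`, with derivative `dρ`. -/
structure UnitaryAction (G : Type) [Group G] [TopologicalSpace G] (κ ν : Type)
    [Fintype κ] [DecidableEq κ] [Fintype ν] [DecidableEq ν] where
  /-- A faithful unitary representation. -/
  ι : G →* Matrix.unitaryGroup κ ℂ
  continuous_ι : Continuous ι
  injective_ι : Function.Injective ι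
  /-- The Lie algebra. -/
  lie : Submodule ℝ (Matrix κ κ ℂ)
  mem_lie : ∀ ξ : Matrix κ κ ℂ,
    ξ ∈ lie ↔ ∀ t : ℝ, ∃ g : G, (ι g : Matrix κ κ ℂ) = NormedSpace.exp (t • ξ)
  /-- The unitary representation giving the action. -/
  ρ : G →* Matrix.unitaryGroup ν ℂ
  continuous_ρ : Continuous ρ
  /-- The infinitesimal action. -/
  dρ : lie →ₗ[ℝ] Matrix ν ν ℂ
  hasDerivAt_ρ : ∀ (ξ : lie) (γ : ℝ → G),
    (∀ t : ℝ, (ι (γ t) : Matrix κ κ ℂ) = NormedSpace.exp (t • (ξ : Matrix κ κ ℂ))) →
    ∀ i j, HasDerivAt (fun t : ℝ => (ρ (γ t) : Matrix ν ν ℂ) i j) (dρ ξ i j) 0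

namespace UnitaryAction

variable {G : Type} [Group G] [TopologicalSpace G] {κ ν : Type}
  [Fintype κ] [DecidableEq κ] [Fintype ν] [DecidableEq ν] (A : UnitaryAction G κ ν)

/-- The dual of the Lie algebra. -/
abbrev LieDual : Type := A.lie →ₗ[ℝ] ℝ

/-- The action of `G` on `ℂ^ν`. -/
def act (g : G) (z : ν → ℂ) : ν → ℂ := (A.ρ g : Matrix ν ν ℂ) *ᵥ z

/-- The action of `G` on orthonormal frames. -/
def frameAct (g : G) (e : κ → Ell2) : κ → Ell2 := fun i => ∑ j, (A.ι g : Matrix κ κ ℂ) i j • e j

/-- The homogeneous quadratic moment map, `μ(z)(ξ) = ω(z, ξ z) / 2`. -/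
def moment (z : ν → ℂ) : A.LieDual where
  toFun ξ := (1 / 2) * omega z (A.dρ ξ *ᵥ z)
  map_add' ξ η := by
    simp only [omega, map_add, Matrix.add_mulVec, dotProduct_add, Complex.add_im]
    ring
  map_smul' c ξ := by
    simp only [omega, map_smul, Matrix.smul_mulVec, dotProduct_smul, RingHom.id_apply,
      smul_eq_mul, Complex.smul_im]
    ring

/-- The level set of the moment map. -/
def level (α : A.LieDual) : Set (ν → ℂ) := {z | A.moment z = α}

/-- `α` is central: it is fixed by the coadjoint action. -/
def IsCentral (α : A.LieDual) : Prop :=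
  ∀ (g : G) (ξ η : A.lie),
    (η : Matrix κ κ ℂ) = (A.ι g : Matrix κ κ ℂ) * (ξ : Matrix κ κ ℂ) * (A.ι g⁻¹ : Matrix κ κ ℂ) →
    α η = α ξ

/-- `α` is a regular value of the moment map: the differential of the moment map is surjective at
every point of the level set. -/
def IsRegularValue (α : A.LieDual) : Prop :=
  ∀ z ∈ A.level α, ∀ β : A.LieDual, ∃ u : ν → ℂ, ∀ ξ : A.lie,
    fderiv ℝ (fun z' => A.moment z' ξ) z u = β ξ

/-- The locus where `G` acts locally freely: the points with finite stabiliser in `G`. -/
def locallyFree : Set (ν → ℂ) := {z | {g : G | A.act g z = z}.Finite}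

/-- The locus where the complexification of `G` acts locally freely: the points at which the
complexified infinitesimal action `ξ + i η ↦ ξ z + i η z` is injective. -/
def locallyFreeC : Set (ν → ℂ) :=
  {z | ∀ ξ η : A.lie, A.dρ ξ *ᵥ z + Complex.I • (A.dρ η *ᵥ z) = 0 → ξ = 0 ∧ η = 0}

lemma act_one (z : ν → ℂ) : A.act 1 z = z := by
  simp [act]

lemma act_mul (g h : G) (z : ν → ℂ) : A.act (g * h) z = A.act g (A.act h z) := by
  simp [act, Matrix.mulVec_mulVec]

lemma frameAct_one (e : κ → Ell2) : A.frameAct 1 e = e := by
  funext i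
  simp [frameAct, Matrix.one_apply]

lemma frameAct_mul (g h : G) (e : κ → Ell2) :
    A.frameAct (g * h) e = A.frameAct g (A.frameAct h e) := by
  funext i
  simp only [frameAct, map_mul, Matrix.UnitaryGroup.mul_val, Matrix.mul_apply, Finset.sum_smul,
    Finset.smul_sum, smul_smul]
  exact Finset.sum_comm

/-- Two points of `EG × S` are equivalent if they are in the same orbit of `G`. -/
def borelSetoid (S : Set (ν → ℂ)) : Setoid (Frame κ × S) where
  r p q := ∃ g : G, q.1.1 = A.frameAct g p.1.1 ∧ (q.2 : ν → ℂ) = A.act g p.2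
  iseqv :=
    { refl := fun p => ⟨1, (A.frameAct_one _).symm, (A.act_one _).symm⟩
      symm := by
        rintro p q ⟨g, h1, h2⟩
        refine ⟨g⁻¹, ?_, ?_⟩
        · rw [h1, ← frameAct_mul, inv_mul_cancel, frameAct_one]
        · rw [h2, ← act_mul, inv_mul_cancel, act_one]
      trans := by
        rintro p q r ⟨g, h1, h2⟩ ⟨g', h1', h2'⟩
        refine ⟨g' * g, ?_, ?_⟩
        · rw [h1', h1, frameAct_mul]
        · rw [h2', h2, act_mul] }

/-- The Borel construction `EG ×_G S`, with the quotient topology. -/
def Borel (S : Set (ν → ℂ)) : Type := Quotient (A.borelSetoid S)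

instance (S : Set (ν → ℂ)) : TopologicalSpace (A.Borel S) :=
  inferInstanceAs (TopologicalSpace (Quotient _))

/-- Two frames are equivalent if they are in the same orbit of `G`. -/
def classifyingSetoid : Setoid (Frame κ) where
  r p q := ∃ g : G, q.1 = A.frameAct g p.1
  iseqv :=
    { refl := fun p => ⟨1, (A.frameAct_one _).symm⟩
      symm := by
        rintro p q ⟨g, h1⟩
        refine ⟨g⁻¹, ?_⟩
        rw [h1, ← frameAct_mul, inv_mul_cancel, frameAct_one]
      trans := by
        rintro p q r ⟨g, h1⟩ ⟨g', h1'⟩
        refine ⟨g' * g, ?_⟩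
        rw [h1', h1, frameAct_mul] }

/-- The classifying space `BG = EG / G`, with the quotient topology; its cohomology is
`H_G^*(pt)`. -/
def BG : Type := Quotient A.classifyingSetoid

instance : TopologicalSpace A.BG := inferInstanceAs (TopologicalSpace (Quotient _))

/-- The projection `EG ×_G S → BG`. -/
def toBG (S : Set (ν → ℂ)) : C(A.Borel S, A.BG) where
  toFun := Quotient.map' (s₁ := A.borelSetoid S) (s₂ := A.classifyingSetoid) Prod.fst
    (fun _ _ ⟨g, hg, _⟩ => ⟨g, hg⟩)
  continuous_toFun := Continuous.quotient_map' continuous_fst _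

/-- The restriction map `H^k_G(pt) → H^k_G(S)`. -/
def restrict (k : ℕ) (S : Set (ν → ℂ)) : H k A.BG → H k (A.Borel S) :=
  pullback k (A.toBG S)

/-- The moment map is proper: one of its components dominates the squared norm. -/
def HasProperMoment : Prop :=
  ∃ ξ : A.lie, ∀ z : ν → ℂ, ∑ i, ‖z i‖ ^ 2 ≤ A.moment z ξ

/-- There is a central regular value of the moment map with non-empty level set. -/
def IsNondegenerate : Prop :=
  ∃ α : A.LieDual, A.IsCentral α ∧ A.IsRegularValue α ∧ (A.level α).Nonempty

/-- The class `c` of `H^k_G(pt)` is in the kernel of the Kirwan map `κ_α` for every central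
regular value `α` of the moment map. -/
def InAllKirwanKernels (k : ℕ) (c : H k A.BG) : Prop :=
  ∀ α : A.LieDual, A.IsCentral α → A.IsRegularValue α → A.restrict k (A.level α) c = 0

end UnitaryAction

end Pool.Agent.Lib.Pc41d74
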