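import Pool.Agent.Lib.Pc41d74.Winding

/-!
# An explicit map from the triangle to the disc, of degree one on the boundary
-/

open Set Topology Filter
open scoped ComplexConjugate InnerProductSpace

noncomputable section

namespace Pool.Agent.Lib.Pc41d74

/-- The primitive third root of unity. -/
def om : ℂ := Complex.exp ((2 * Real.pi / 3 : ℝ) * Complex.I)

lemma om_re : om.re = -1 / 2 := by
  rw [om, Complex.exp_ofReal_mul_I_re]
  have : (2 * Real.pi / 3 : ℝ) = Real.pi - Real.pi / 3 := by ring
  rw [this, Real.cos_pi_sub, Real.cos_pi_div_three]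
  ring

lemma om_im : om.im = Real.sqrt 3 / 2 := by
  rw [om, Complex.exp_ofReal_mul_I_im]
  have : (2 * Real.pi / 3 : ℝ) = Real.pi - Real.pi / 3 := by ring
  rw [this, Real.sin_pi_sub, Real.sin_pi_div_three]

lemma om_sq : om * om = conj om := by
  have h3 : Real.sqrt 3 * Real.sqrt 3 = 3 := Real.mul_self_sqrt (by norm_num)
  apply Complex.ext
  · simp only [Complex.mul_re, Complex.conj_re, om_re, om_im]
    nlinarith
  · simp only [Complex.mul_im, Complex.conj_im, om_re, om_im]
    ring

lemma norm_om : ‖om‖ = 1 := by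
  rw [om, Complex.norm_exp_ofReal_mul_I]

lemma arg_om : om.arg = 2 * Real.pi / 3 := by
  rw [om, Complex.arg_exp_mul_I, toIocMod_eq_self]
  constructor <;> linarith [Real.pi_pos]

/-- The affine map from the triangle sending the vertices to the cube roots of unity. -/
def wf (t : Simplex 2) : ℂ := (t.1 0 : ℂ) + (t.1 1 : ℂ) * om + (t.1 2 : ℂ) * conj om

/-- The smallest barycentric coordinate. -/
def mf (t : Simplex 2) : ℝ := min (t.1 0) (min (t.1 1) (t.1 2))

lemma continuous_val {k : ℕ} (i : Fin (k + 1)) : Continuous (fun t : Simplex k => t.1 i) :=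
  (continuous_apply i).comp continuous_subtype_val

lemma continuous_wf : Continuous wf := by
  unfold wf
  have h0 := Complex.continuous_ofReal.comp (continuous_val (k := 2) 0)
  have h1 := Complex.continuous_ofReal.comp (continuous_val (k := 2) 1)
  have h2 := Complex.continuous_ofReal.comp (continuous_val (k := 2) 2)
  exact (h0.add (h1.mul continuous_const)).add (h2.mul continuous_const)

lemma continuous_mf : Continuous mf := by
  unfold mf
  have h0 := continuous_val (k := 2) 0
  have h1 := continuous_val (k := 2) 1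
  have h2 := continuous_val (k := 2) 2
  exact h0.min (h1.min h2)

lemma mf_nonneg (t : Simplex 2) : 0 ≤ mf t :=
  le_min (val_nonneg t 0) (le_min (val_nonneg t 1) (val_nonneg t 2))

lemma sum_val (t : Simplex 2) : t.1 0 + t.1 1 + t.1 2 = 1 := by
  have := t.2.2
  rw [Fin.sum_univ_three] at this
  exact this

lemma den_pos (t : Simplex 2) : 0 < ‖wf t‖ + mf t := by
  rcases eq_or_ne (wf t) 0 with h | h
  · have hs : Real.sqrt 3 > 0 := by positivity
    have him := congrArg Complex.im h
    have hre := congrArg Complex.re h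
    simp [wf, om_re, om_im] at him hre
    have h12 : t.1 1 = t.1 2 := by
      have : (t.1 1 - t.1 2) * (Real.sqrt 3 / 2) = 0 := by linarith
      rcases mul_eq_zero.1 this with h' | h'
      · linarith
      · linarith
    have h0 : t.1 0 = t.1 1 := by
      rw [h12] at hre ⊢
      linarith
    have hsum := sum_val t
    have : 0 < mf t := by
      unfold mf
      rw [← h12, h0]
      simp
      linarith
    rw [h, norm_zero, zero_add]
    exact this
  · have := mf_nonneg t
    have := norm_pos_iff.2 h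
    linarith

/-- The map from the triangle to the closed unit disc. -/
def zf (t : Simplex 2) : ℂ := wf t / ((‖wf t‖ + mf t : ℝ) : ℂ)

lemma continuous_zf : Continuous zf := by
  unfold zf
  refine continuous_wf.div ?_ ?_
  · exact Complex.continuous_ofReal.comp (continuous_wf.norm.add continuous_mf)
  · intro t
    exact_mod_cast (den_pos t).ne'

lemma norm_zf (t : Simplex 2) : ‖zf t‖ = ‖wf t‖ / (‖wf t‖ + mf t) := by
  rw [zf, norm_div, Complex.norm_real, Real.norm_of_nonneg (den_pos t).le]

lemma norm_zf_le (t : Simplex 2) : ‖zf t‖ ≤ 1 := by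
  rw [norm_zf, div_le_one (den_pos t)]
  linarith [mf_nonneg t]

lemma face_val {k : ℕ} (i : Fin (k + 2)) (s : Simplex k) (j : Fin (k + 2)) :
    (face i s).1 j = ∑ x, if i.succAbove x = j then s.1 x else 0 := by
  show FunOnFinite.linearMap ℝ ℝ (Fin.succAbove i) s.1 _ = _
  rw [FunOnFinite.linearMap_apply_apply, Finset.sum_filter]

lemma face_two_val (s : Simplex 1) :
    (face (2 : Fin 3) s).1 0 = s.1 0 ∧ (face (2 : Fin 3) s).1 1 = s.1 1 ∧
      (face (2 : Fin 3) s).1 2 = 0 := by
  have e1 : (2 : Fin 3).succAbove (1 : Fin 2) = 1 := by decide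
  have e0 : (2 : Fin 3).succAbove (0 : Fin 2) = 0 := by decide
  refine ⟨?_, ?_, ?_⟩ <;>
  · rw [face_val, Fin.sum_univ_two, e0, e1]
    simp

lemma face_one_val (s : Simplex 1) :
    (face (1 : Fin 3) s).1 0 = s.1 0 ∧ (face (1 : Fin 3) s).1 1 = 0 ∧
      (face (1 : Fin 3) s).1 2 = s.1 1 := by
  have e1 : (1 : Fin 3).succAbove (1 : Fin 2) = 2 := by decide
  have e0 : (1 : Fin 3).succAbove (0 : Fin 2) = 0 := by decide
  refine ⟨?_, ?_, ?_⟩ <;>
  · rw [face_val, Fin.sum_univ_two, e0, e1]
    simp

lemma face_zero_val (s : Simplex 1) :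
    (face (0 : Fin 3) s).1 0 = 0 ∧ (face (0 : Fin 3) s).1 1 = s.1 0 ∧
      (face (0 : Fin 3) s).1 2 = s.1 1 := by
  have e1 : (0 : Fin 3).succAbove (1 : Fin 2) = 2 := by decide
  have e0 : (0 : Fin 3).succAbove (0 : Fin 2) = 1 := by decide
  refine ⟨?_, ?_, ?_⟩ <;>
  · rw [face_val, Fin.sum_univ_two, e0, e1]
    simp

lemma mf_face (i : Fin 3) (s : Simplex 1) : mf (face i s) = 0 := by
  have h0 := val_nonneg s 0
  have h1 := val_nonneg s 1
  unfold mf
  fin_cases i
  · obtain ⟨a, b, c⟩ := face_zero_val s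
    simp only [Fin.zero_eta]
    rw [a, b, c]
    exact min_eq_left (le_min h0 h1)
  · obtain ⟨a, b, c⟩ := face_one_val s
    simp only [Fin.mk_one]
    rw [a, b, c, min_eq_left h1, min_eq_right h0]
  · obtain ⟨a, b, c⟩ := face_two_val s
    simp only [Fin.reduceFinMk]
    rw [a, b, c, min_eq_right h1, min_eq_right h0]

lemma norm_zf_face (i : Fin 3) (s : Simplex 1) : ‖zf (face i s)‖ = 1 := by
  have h := den_pos (face i s)
  rw [mf_face, add_zero] at h
  rw [norm_zf, mf_face, add_zero, div_self h.ne']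

lemma zf_face (i : Fin 3) (s : Simplex 1) :
    zf (face i s) = wf (face i s) / (‖wf (face i s)‖ : ℂ) := by
  rw [zf, mf_face, add_zero]

/-- The segment from `1` to the third root of unity. -/
def uf (s : Simplex 1) : ℂ := (s.1 0 : ℂ) + (s.1 1 : ℂ) * om

lemma continuous_uf : Continuous uf := by
  unfold uf
  have h0 := Complex.continuous_ofReal.comp (continuous_val (k := 1) 0)
  have h1 := Complex.continuous_ofReal.comp (continuous_val (k := 1) 1)
  exact h0.add (h1.mul continuous_const)

lemma uf_mem_slitPlane (s : Simplex 1) : uf s ∈ Complex.slitPlane := by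
  have hs : Real.sqrt 3 > 0 := by positivity
  have hsum : s.1 0 + s.1 1 = 1 := by
    have := s.2.2
    rw [Fin.sum_univ_two] at this
    exact this
  rw [Complex.mem_slitPlane_iff]
  rcases eq_or_ne (s.1 1) 0 with h | h
  · left
    simp only [uf, Complex.add_re, Complex.ofReal_re, Complex.mul_re, Complex.ofReal_im, h]
    norm_num
    linarith
  · right
    simp only [uf, Complex.add_im, Complex.ofReal_im, Complex.mul_im, Complex.ofReal_re, om_im]
    simpa using h

lemma uf_ne_zero (s : Simplex 1) : uf s ≠ 0 := Complex.slitPlane_ne_zero (uf_mem_slitPlane s)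

/-- The argument along this segment. -/
def th : C(Simplex 1, ℝ) :=
  ⟨fun s => (uf s).arg, continuous_iff_continuousAt.2 fun s =>
    (Complex.continuousAt_arg (uf_mem_slitPlane s)).comp continuous_uf.continuousAt⟩

lemma exp_th (s : Simplex 1) : Complex.exp (th s * Complex.I) = uf s / (‖uf s‖ : ℂ) := by
  rw [eq_div_iff (by exact_mod_cast (norm_ne_zero_iff.2 (uf_ne_zero s))), mul_comm]
  exact Complex.norm_mul_exp_arg_mul_I (uf s)

lemma vtx_val (k : ℕ) (i j : Fin (k + 1)) : (vtx k i).1 j = if j = i then 1 else 0 := by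
  show (Pi.single i (1 : ℝ) : Fin (k + 1) → ℝ) j = _
  rw [Pi.single_apply]

lemma th_zero : th (vtx 1 0) = 0 := by
  show (uf (vtx 1 0)).arg = 0
  have : uf (vtx 1 0) = 1 := by
    simp [uf, vtx_val]
  rw [this, Complex.arg_one]

lemma th_one : th (vtx 1 1) = 2 * Real.pi / 3 := by
  show (uf (vtx 1 1)).arg = _
  have : uf (vtx 1 1) = om := by
    simp [uf, vtx_val]
  rw [this, arg_om]

lemma wf_face_two (s : Simplex 1) : wf (face (2 : Fin 3) s) = uf s := by
  obtain ⟨a, b, c⟩ := face_two_val s
  rw [wf, a, b, c, uf]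
  simp

lemma wf_face_one (s : Simplex 1) : wf (face (1 : Fin 3) s) = conj (uf s) := by
  obtain ⟨a, b, c⟩ := face_one_val s
  rw [wf, a, b, c, uf]
  simp

lemma wf_face_zero (s : Simplex 1) : wf (face (0 : Fin 3) s) = om * uf s := by
  obtain ⟨a, b, c⟩ := face_zero_val s
  rw [wf, a, b, c, uf, mul_add, ← om_sq]
  push_cast
  ring


/-- `zf` on a face, as a path in the circle. -/
def zc (i : Fin 3) : C(Simplex 1, Circle) :=
  ⟨fun s => ⟨zf (face i s), mem_sphere_zero_iff_norm.2 (norm_zf_face i s)⟩,
    Continuous.subtype_mk (continuous_zf.comp (face i).continuous) _⟩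

lemma zc_coe (i : Fin 3) (s : Simplex 1) : ((zc i s : Circle) : ℂ) = zf (face i s) := rfl

lemma dArg_zc_two : dArg (zc 2) = 2 * Real.pi / 3 := by
  rw [dArg_eq (zc 2) th, th_one, th_zero, sub_zero]
  intro s
  apply Circle.ext
  rw [zc_coe, Circle.coe_exp, exp_th, zf_face, wf_face_two]

lemma dArg_zc_one : dArg (zc 1) = -(2 * Real.pi / 3) := by
  rw [dArg_eq (zc 1) (-th)]
  · simp only [ContinuousMap.neg_apply, th_one, th_zero]
    ring
  intro s
  apply Circle.ext
  rw [zc_coe, Circle.coe_exp, zf_face, wf_face_one, Complex.norm_conj]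
  have h := congrArg conj (exp_th s)
  rw [← Complex.exp_conj] at h
  simp only [map_mul, Complex.conj_ofReal, Complex.conj_I, map_div₀] at h
  rw [← h]
  simp

lemma dArg_zc_zero : dArg (zc 0) = 2 * Real.pi / 3 := by
  rw [dArg_eq (zc 0) (th + ContinuousMap.const _ (2 * Real.pi / 3))]
  · simp only [ContinuousMap.add_apply, ContinuousMap.const_apply, th_one, th_zero]
    ring
  intro s
  apply Circle.ext
  rw [zc_coe, Circle.coe_exp, zf_face, wf_face_zero, norm_mul, norm_om, one_mul]
  simp only [ContinuousMap.add_apply, ContinuousMap.const_apply, Complex.ofReal_add, add_mul,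
    Complex.exp_add]
  rw [exp_th, om]
  ring

/-- The orthonormal combination of two orthonormal vectors determined by a point of the disc. -/
def rot {E : Type} [NormedAddCommGroup E] [InnerProductSpace ℂ E] (p q : E) (t : Simplex 2) : E :=
  zf t • p + ((Real.sqrt (1 - ‖zf t‖ ^ 2) : ℝ) : ℂ) • q

lemma continuous_rot {E : Type} [NormedAddCommGroup E] [InnerProductSpace ℂ E] (p q : E) :
    Continuous (rot p q) := by
  unfold rot
  have h := continuous_zf
  refine (h.smul continuous_const).add (Continuous.smul ?_ continuous_const)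
  exact Complex.continuous_ofReal.comp
    (Real.continuous_sqrt.comp (continuous_const.sub (h.norm.pow 2)))

lemma rot_face {E : Type} [NormedAddCommGroup E] [InnerProductSpace ℂ E] (p q : E) (i : Fin 3)
    (s : Simplex 1) : rot p q (face i s) = zf (face i s) • p := by
  rw [rot, norm_zf_face]
  simp

lemma one_sub_nonneg (t : Simplex 2) : 0 ≤ 1 - ‖zf t‖ ^ 2 := by
  have h1 := norm_zf_le t
  have h2 := norm_nonneg (zf t)
  nlinarith

lemma norm_rot {E : Type} [NormedAddCommGroup E] [InnerProductSpace ℂ E] (p q : E)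
    (hp : ‖p‖ = 1) (hq : ‖q‖ = 1) (hpq : ⟪p, q⟫_ℂ = 0) (t : Simplex 2) : ‖rot p q t‖ = 1 := by
  have h : ‖rot p q t‖ * ‖rot p q t‖ = 1 := by
    rw [rot, norm_add_sq_eq_norm_sq_add_norm_sq_of_inner_eq_zero (𝕜 := ℂ)]
    · rw [norm_smul, norm_smul, hp, hq, Complex.norm_real, Real.norm_of_nonneg (Real.sqrt_nonneg _)]
      have := Real.mul_self_sqrt (one_sub_nonneg t)
      nlinarith
    · rw [inner_smul_left, inner_smul_right, hpq]
      simp
  have h0 := norm_nonneg (rot p q t)
  nlinarith

/-- Evaluation of the winding cocycle on the explicit pair of simplices. -/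
theorem qc_disc {E : Type} [NormedAddCommGroup E] [InnerProductSpace ℂ E] (p q : E)
    (hp : ‖p‖ = 1) (A B : C(Simplex 2, Sph E))
    (hA : ∀ t, (A t : E) = p) (hB : ∀ t, (B t : E) = rot p q t) :
    qc (pr.comp B) - qc (pr.comp A) = 1 := by
  have hpr : ∀ (i : Fin 3) (s : Simplex 1), pr (A (face i s)) = pr (B (face i s)) := by
    intro i s
    rw [pr_eq_iff]
    refine ⟨zc i s, ?_⟩
    rw [hA, hB, rot_face, zc_coe]
  refine qc_sub A B hpr ?_
  have hw : ∀ i : Fin 3, wind (A.comp (face i)) (B.comp (face i)) = dArg (zc i) := by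
    intro i
    rw [wind_eq _ _ (fun s => hpr i s)]
    congr 1
    ext s
    rw [ratio_coe, zc_coe]
    show ⟪(A (face i s) : E), (B (face i s) : E)⟫_ℂ = _
    rw [hA, hB, rot_face, inner_smul_right, inner_self_eq_norm_sq_to_K, hp]
    simp
  simp only [hw, Fin.sum_univ_three, dArg_zc_zero, dArg_zc_one, dArg_zc_two]
  simp
  ring

end Pool.Agent.Lib.Pc41d74
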