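import Mathlib

/-!
# Facts on the exponential of complex matrices
-/

open scoped Matrix ComplexConjugate

noncomputable section

namespace Pool.Agent.Lib.Pc41d74

variable {κ : Type} [Fintype κ] [DecidableEq κ]

lemma hasDerivAt_exp_entry (M : Matrix κ κ ℂ) (i j : κ) (s : ℝ) :
    HasDerivAt (fun t : ℝ => (NormedSpace.exp (t • M)) i j) ((NormedSpace.exp (s • M) * M) i j) s := by
  let _ : NormedRing (Matrix κ κ ℂ) := Matrix.linftyOpNormedRing
  let _ : NormedAlgebra ℝ (Matrix κ κ ℂ) := Matrix.linftyOpNormedAlgebra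
  have h := hasDerivAt_exp_smul_const (𝕂 := ℝ) M s
  let L : Matrix κ κ ℂ →L[ℝ] ℂ := LinearMap.toContinuousLinearMap (Matrix.entryLinearMap ℝ ℂ i j)
  exact (L.hasFDerivAt.comp_hasDerivAt s h)

lemma hasDerivAt_exp_entry' (M : Matrix κ κ ℂ) (i j : κ) (s : ℝ) :
    HasDerivAt (fun t : ℝ => (NormedSpace.exp (t • M)) i j) ((M * NormedSpace.exp (s • M)) i j) s := by
  let _ : NormedRing (Matrix κ κ ℂ) := Matrix.linftyOpNormedRing
  let _ : NormedAlgebra ℝ (Matrix κ κ ℂ) := Matrix.linftyOpNormedAlgebra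
  have h := hasDerivAt_exp_smul_const' (𝕂 := ℝ) M s
  let L : Matrix κ κ ℂ →L[ℝ] ℂ := LinearMap.toContinuousLinearMap (Matrix.entryLinearMap ℝ ℂ i j)
  exact (L.hasFDerivAt.comp_hasDerivAt s h)

lemma exp_zero_smul (M : Matrix κ κ ℂ) : NormedSpace.exp ((0 : ℝ) • M) = 1 := by
  rw [zero_smul, NormedSpace.exp_zero]

lemma hasDerivAt_exp_entry_zero (M : Matrix κ κ ℂ) (i j : κ) :
    HasDerivAt (fun t : ℝ => (NormedSpace.exp (t • M)) i j) (M i j) 0 := by
  have h := hasDerivAt_exp_entry M i j 0
  rwa [exp_zero_smul, one_mul] at h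

/-- The determinant of the exponential of a `2 × 2` matrix. -/
lemma det_exp_two (M : Matrix (Fin 2) (Fin 2) ℂ) (s : ℝ) :
    (NormedSpace.exp (s • M)).det = Complex.exp (s * M.trace) := by
  let f : ℝ → ℂ := fun t => (NormedSpace.exp (t • M)).det * Complex.exp (t * -M.trace)
  have hf : ∀ t, HasDerivAt f 0 t := by
    intro t
    have e := hasDerivAt_exp_entry' M
    have h1 : HasDerivAt (fun t : ℝ => (NormedSpace.exp (t • M)).det)
        (M.trace * (NormedSpace.exp (t • M)).det) t := by
      have h := ((e 0 0 t).mul (e 1 1 t)).sub ((e 0 1 t).mul (e 1 0 t))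
      have h5 : (M * NormedSpace.exp (t • M)) 0 0 * NormedSpace.exp (t • M) 1 1 +
          NormedSpace.exp (t • M) 0 0 * (M * NormedSpace.exp (t • M)) 1 1 -
          ((M * NormedSpace.exp (t • M)) 0 1 * NormedSpace.exp (t • M) 1 0 +
          NormedSpace.exp (t • M) 0 1 * (M * NormedSpace.exp (t • M)) 1 0) =
          M.trace * (NormedSpace.exp (t • M)).det := by
        simp only [Matrix.mul_apply, Fin.sum_univ_two, Matrix.det_fin_two, Matrix.trace_fin_two]
        ring
      rw [← h5]
      simp only [Matrix.det_fin_two]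
      exact h
    have h2 : HasDerivAt (fun t : ℝ => Complex.exp (t * -M.trace))
        (Complex.exp (t * -M.trace) * (-M.trace)) t := by
      refine HasDerivAt.cexp ?_
      have h3 : HasDerivAt (fun t : ℝ => (t : ℂ)) 1 t := Complex.ofRealCLM.hasDerivAt
      have := (h3.mul_const (-M.trace))
      simpa using this
    have h3 := h1.mul h2
    have h4 : M.trace * (NormedSpace.exp (t • M)).det * Complex.exp (t * -M.trace) +
        (NormedSpace.exp (t • M)).det * (Complex.exp (t * -M.trace) * -M.trace) = 0 := by ring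
    rw [h4] at h3
    exact h3
  have hc := is_const_of_deriv_eq_zero (f := f) (fun t => (hf t).differentiableAt)
    (fun t => (hf t).deriv) s 0
  have h6 : f 0 = 1 := by
    simp [f]
  rw [h6] at hc
  have h7 : f s * Complex.exp (s * M.trace) = (NormedSpace.exp (s • M)).det := by
    simp only [f]
    rw [mul_assoc, ← Complex.exp_add]
    simp
  rw [← h7, hc, one_mul]

/-- The exponential of a block diagonal matrix. -/
lemma exp_fromBlocks {a b : Type} [Fintype a] [DecidableEq a] [Fintype b] [DecidableEq b]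
    (M : Matrix a a ℂ) (N : Matrix b b ℂ) :
    NormedSpace.exp (Matrix.fromBlocks M 0 0 N) =
      Matrix.fromBlocks (NormedSpace.exp M) 0 0 (NormedSpace.exp N) := by
  have key : ∀ {c : Type} [Fintype c] [DecidableEq c] (X : Matrix c c ℂ),
      HasSum (fun n : ℕ => ((n.factorial : ℝ)⁻¹) • X ^ n) (NormedSpace.exp X) := by
    intro c _ _ X
    let _ : NormedRing (Matrix c c ℂ) := Matrix.linftyOpNormedRing
    let _ : NormedAlgebra ℝ (Matrix c c ℂ) := Matrix.linftyOpNormedAlgebra
    exact NormedSpace.exp_series_hasSum_exp' (𝕂 := ℝ) X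
  let f : (Matrix a a ℂ × Matrix b b ℂ) →+ Matrix (a ⊕ b) (a ⊕ b) ℂ :=
    { toFun := fun p => Matrix.fromBlocks p.1 0 0 p.2
      map_zero' := by simp
      map_add' := fun p q => by simp [Matrix.fromBlocks_add] }
  have hf : Continuous f := by
    show Continuous (fun p : Matrix a a ℂ × Matrix b b ℂ => Matrix.fromBlocks p.1 0 0 p.2)
    exact continuous_fst.matrix_fromBlocks continuous_const continuous_const continuous_snd
  have h1 := ((key M).prodMk (key N)).map f hf
  have h2 := key (Matrix.fromBlocks M 0 0 N)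
  have h3 : (fun n : ℕ => ((n.factorial : ℝ)⁻¹) • (Matrix.fromBlocks M 0 0 N) ^ n) =
      f ∘ (fun n : ℕ => (((n.factorial : ℝ)⁻¹) • M ^ n, ((n.factorial : ℝ)⁻¹) • N ^ n)) := by
    funext n
    simp only [f, Function.comp_apply, AddMonoidHom.coe_mk, ZeroHom.coe_mk]
    rw [Matrix.fromBlocks_diagonal_pow, Matrix.fromBlocks_smul, smul_zero, smul_zero]
  rw [h3] at h2
  exact h2.unique h1

end Pool.Agent.Lib.Pc41d74
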