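import Pool.Agent.Lib.Pc41d74.Criterion
import Pool.Agent.Lib.Pc41d74.MatExp

/-!
# The example: `U(2) × U(1)` acting on `ℂ² ⊕ ℂ² ⊕ ℂ² ⊕ ℂ ⊕ ℂ`
-/

open Set Topology Filter
open scoped ComplexConjugate InnerProductSpace Matrix

noncomputable section

namespace Pool.Agent.Lib.Pc41d74

/-! ### Block sums of unitary representations -/

section Blocks

variable {G : Type} [Group G]

/-- The direct sum of two unitary representations. -/
def blockHom {a b : Type} [Fintype a] [DecidableEq a] [Fintype b] [DecidableEq b]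
    (f : G →* Matrix.unitaryGroup a ℂ) (h : G →* Matrix.unitaryGroup b ℂ) :
    G →* Matrix.unitaryGroup (a ⊕ b) ℂ where
  toFun g := ⟨Matrix.fromBlocks (f g) 0 0 (h g), by
    rw [Matrix.mem_unitaryGroup_iff, Matrix.star_eq_conjTranspose, Matrix.fromBlocks_conjTranspose,
      Matrix.fromBlocks_multiply]
    have h1 := Matrix.mem_unitaryGroup_iff.1 (f g).2
    have h2 := Matrix.mem_unitaryGroup_iff.1 (h g).2
    rw [Matrix.star_eq_conjTranspose] at h1 h2
    simp [h1, h2]⟩
  map_one' := by
    apply Subtype.ext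
    simp
  map_mul' g g' := by
    apply Subtype.ext
    simp [Matrix.fromBlocks_multiply]

/-- The representation of dimension two given by two characters. -/
def diagHom (c₀ c₁ : G →* Circle) : G →* Matrix.unitaryGroup (Fin 2) ℂ where
  toFun g := ⟨Matrix.diagonal ![(c₀ g : ℂ), (c₁ g : ℂ)], by
    rw [Matrix.mem_unitaryGroup_iff, Matrix.star_eq_conjTranspose, Matrix.diagonal_conjTranspose,
      Matrix.diagonal_mul_diagonal, ← Matrix.diagonal_one]
    congr 1
    funext i
    fin_cases i
    · simp [Complex.mul_conj, Complex.normSq_eq_norm_sq, Circle.norm_coe (c₀ g)]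
    · simp [Complex.mul_conj, Complex.normSq_eq_norm_sq, Circle.norm_coe (c₁ g)]⟩
  map_one' := by
    apply Subtype.ext
    show Matrix.diagonal ![((c₀ 1 : Circle) : ℂ), ((c₁ 1 : Circle) : ℂ)] = 1
    rw [← Matrix.diagonal_one]
    congr 1
    funext i
    fin_cases i <;> simp
  map_mul' g g' := by
    apply Subtype.ext
    show Matrix.diagonal ![((c₀ (g * g') : Circle) : ℂ), ((c₁ (g * g') : Circle) : ℂ)] =
      Matrix.diagonal ![((c₀ g : Circle) : ℂ), ((c₁ g : Circle) : ℂ)] *
      Matrix.diagonal ![((c₀ g' : Circle) : ℂ), ((c₁ g' : Circle) : ℂ)]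
    rw [Matrix.diagonal_mul_diagonal]
    congr 1
    funext i
    fin_cases i <;> simp

end Blocks

/-- The group `U(2) × U(1)`. -/
abbrev GG : Type := Matrix.unitaryGroup (Fin 2) ℂ × Circle

/-- The determinant of the first component. -/
def detChar : GG →* Circle where
  toFun g := ⟨(g.1 : Matrix (Fin 2) (Fin 2) ℂ).det, by
    refine mem_sphere_zero_iff_norm.2 ?_
    exact (CStarRing.norm_of_mem_unitary (Matrix.det_of_mem_unitary g.1.2))⟩
  map_one' := by
    apply Circle.ext
    simp
  map_mul' g h := by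
    apply Circle.ext
    show ((g.1 * h.1 : Matrix.unitaryGroup (Fin 2) ℂ) : Matrix (Fin 2) (Fin 2) ℂ).det =
      (g.1 : Matrix (Fin 2) (Fin 2) ℂ).det * (h.1 : Matrix (Fin 2) (Fin 2) ℂ).det
    rw [Matrix.UnitaryGroup.mul_val, Matrix.det_mul]

lemma detChar_coe (g : GG) : (detChar g : ℂ) = (g.1 : Matrix (Fin 2) (Fin 2) ℂ).det := rfl

/-- The second component. -/
def sndChar : GG →* Circle := MonoidHom.snd _ _

/-- The standard representation of `U(2)`. -/
def stdRep : GG →* Matrix.unitaryGroup (Fin 2) ℂ := MonoidHom.fst _ _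

/-- The dual of the standard representation, twisted by the second component. -/
def dualRep : GG →* Matrix.unitaryGroup (Fin 2) ℂ where
  toFun g := ⟨(g.2 : ℂ) • (g.1 : Matrix (Fin 2) (Fin 2) ℂ).map conj, by
    rw [Matrix.mem_unitaryGroup_iff, Matrix.star_eq_conjTranspose, Matrix.conjTranspose_smul,
      Matrix.smul_mul, Matrix.mul_smul, smul_smul]
    have h1 := Matrix.mem_unitaryGroup_iff.1 g.1.2
    rw [Matrix.star_eq_conjTranspose] at h1
    have h2 := congrArg (fun M : Matrix (Fin 2) (Fin 2) ℂ => M.map conj) h1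
    have h3 : ((g.1 : Matrix (Fin 2) (Fin 2) ℂ).map conj) *
        ((g.1 : Matrix (Fin 2) (Fin 2) ℂ).map conj)ᴴ = 1 := by
      ext i j
      have := congrFun (congrFun h2 i) j
      simp only [Matrix.map_apply, Matrix.mul_apply, Matrix.conjTranspose_apply, map_sum,
        map_mul] at this ⊢
      simpa [Matrix.one_apply] using this
    rw [h3]
    have h4 : (g.2 : ℂ) * star (g.2 : ℂ) = 1 := by
      rw [Complex.star_def, Complex.mul_conj, Complex.normSq_eq_norm_sq, Circle.norm_coe]
      simp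
    rw [h4, one_smul]⟩
  map_one' := by
    apply Subtype.ext
    ext i j
    simp [Matrix.one_apply]
  map_mul' g h := by
    apply Subtype.ext
    ext i j
    simp [Matrix.mul_apply, Fin.sum_univ_two]
    ring

/-- The faithful representation `(g, t) ↦ diag (g, t, det g)`. -/
def iotaRep : GG →* Matrix.unitaryGroup (Fin 2 ⊕ Fin 2) ℂ :=
  blockHom stdRep (diagHom sndChar detChar)

/-- The representation on `ℂ² ⊕ ℂ² ⊕ ℂ² ⊕ ℂ ⊕ ℂ` given by
`(g, t) ↦ diag (g, g, t g⁻ᵀ, t, t (det g)⁻¹)`. -/
def rhoRep : GG →* Matrix.unitaryGroup ((Fin 2 ⊕ Fin 2) ⊕ (Fin 2 ⊕ Fin 2)) ℂ :=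
  blockHom (blockHom stdRep stdRep) (blockHom dualRep (diagHom sndChar (sndChar * detChar⁻¹)))

/-- The index type of the faithful representation. -/
abbrev KK : Type := Fin 2 ⊕ Fin 2

/-- The index type of the representation space. -/
abbrev NN : Type := (Fin 2 ⊕ Fin 2) ⊕ (Fin 2 ⊕ Fin 2)

/-- The Lie algebra of `U(2) × U(1)`, inside the `4 × 4` matrices. -/
def lieEx : Submodule ℝ (Matrix KK KK ℂ) where
  carrier := {M | Mᴴ = -M ∧ (∀ i j, M (Sum.inl i) (Sum.inr j) = 0) ∧
    M (Sum.inr 0) (Sum.inr 1) = 0 ∧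
    M (Sum.inr 1) (Sum.inr 1) = M (Sum.inl 0) (Sum.inl 0) + M (Sum.inl 1) (Sum.inl 1)}
  zero_mem' := by simp
  add_mem' := by
    rintro M N ⟨h1, h2, h3, h4⟩ ⟨h1', h2', h3', h4'⟩
    refine ⟨?_, ?_, ?_, ?_⟩
    · rw [Matrix.conjTranspose_add, h1, h1', neg_add]
    · intro i j
      simp [h2, h2']
    · simp [h3, h3']
    · simp only [Matrix.add_apply, h4, h4']
      ring
  smul_mem' := by
    rintro c M ⟨h1, h2, h3, h4⟩
    refine ⟨?_, ?_, ?_, ?_⟩
    · rw [Matrix.conjTranspose_smul, h1]
      simp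
    · intro i j
      simp [h2]
    · simp [h3]
    · simp only [Matrix.smul_apply, h4]
      rw [smul_add]

lemma iota_apply_inl_inl (g : GG) (i j : Fin 2) :
    (iotaRep g : Matrix KK KK ℂ) (Sum.inl i) (Sum.inl j) = (g.1 : Matrix (Fin 2) (Fin 2) ℂ) i j := rfl

lemma iota_apply_inl_inr (g : GG) (i j : Fin 2) :
    (iotaRep g : Matrix KK KK ℂ) (Sum.inl i) (Sum.inr j) = 0 := rfl

lemma iota_apply_inr_inl (g : GG) (i j : Fin 2) :
    (iotaRep g : Matrix KK KK ℂ) (Sum.inr i) (Sum.inl j) = 0 := rfl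

lemma iota_apply_inr_inr (g : GG) (i j : Fin 2) :
    (iotaRep g : Matrix KK KK ℂ) (Sum.inr i) (Sum.inr j) =
      (Matrix.diagonal ![(g.2 : ℂ), (g.1 : Matrix (Fin 2) (Fin 2) ℂ).det]) i j := rfl

lemma mem_lieEx (M : Matrix KK KK ℂ) : M ∈ lieEx ↔
    ∀ t : ℝ, ∃ g : GG, (iotaRep g : Matrix KK KK ℂ) = NormedSpace.exp (t • M) := by
  constructor
  · rintro ⟨h1, h2, h3, h4⟩ t
    have hs : ∀ a b, conj (M b a) = -M a b := by
      intro a b
      have := congrFun (congrFun h1 a) b
      simpa [Matrix.conjTranspose_apply] using this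
    set X : Matrix (Fin 2) (Fin 2) ℂ := M.toBlocks₁₁ with hX
    set η : ℂ := M (Sum.inr 0) (Sum.inr 0) with hη
    have hM : M = Matrix.fromBlocks X 0 0 (Matrix.diagonal ![η, X.trace]) := by
      ext a b
      rcases a with a | a <;> rcases b with b | b
      · rfl
      · simpa using h2 a b
      · have := hs (Sum.inr a) (Sum.inl b)
        rw [h2 b a, map_zero] at this
        simpa using this.symm
      · simp only [Matrix.fromBlocks_apply₂₂]
        have h5 := hs (Sum.inr 1) (Sum.inr 0)
        rw [h3, map_zero] at h5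
        fin_cases a <;> fin_cases b
        · simp [hη]
        · simpa using h3
        · simpa using h5.symm
        · simpa [Matrix.trace_fin_two, hX, Matrix.toBlocks₁₁] using h4
    have hXs : (t • X) ∈ skewAdjoint (Matrix (Fin 2) (Fin 2) ℂ) := by
      rw [skewAdjoint.mem_iff, star_smul, Matrix.star_eq_conjTranspose]
      have : Xᴴ = -X := by
        ext a b
        simpa [Matrix.conjTranspose_apply, hX, Matrix.toBlocks₁₁] using hs (Sum.inl a) (Sum.inl b)
      rw [this]
      simp
    have hU : NormedSpace.exp (t • X) ∈ Matrix.unitaryGroup (Fin 2) ℂ := by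
      rw [Matrix.mem_unitaryGroup_iff', Matrix.star_eq_conjTranspose, ← Matrix.exp_conjTranspose]
      rw [skewAdjoint.mem_iff, Matrix.star_eq_conjTranspose] at hXs
      rw [hXs, ← Matrix.exp_add_of_commute _ _ (Commute.neg_left (Commute.refl (t • X))),
        neg_add_cancel, NormedSpace.exp_zero]
    have hη' : η = (η.im : ℂ) * Complex.I := by
      have := hs (Sum.inr 0) (Sum.inr 0)
      rw [← hη] at this
      have hre := congrArg Complex.re this
      simp only [Complex.conj_re, Complex.neg_re] at hre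
      apply Complex.ext
      · simp; linarith
      · simp
    refine ⟨(⟨NormedSpace.exp (t • X), hU⟩, Circle.exp (t * η.im)), ?_⟩
    have hsm : t • M = Matrix.fromBlocks (t • X) 0 0 (Matrix.diagonal ![t * η, t * X.trace]) := by
      conv_lhs => rw [hM]
      rw [Matrix.fromBlocks_smul, smul_zero, ← Matrix.diagonal_smul]
      congr 2
      funext i
      fin_cases i <;> simp
    rw [hsm, exp_fromBlocks, Matrix.exp_diagonal]
    have hd : (Matrix.diagonal (NormedSpace.exp ![(t : ℂ) * η, t * X.trace]) :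
        Matrix (Fin 2) (Fin 2) ℂ) = Matrix.diagonal ![Complex.exp (t * η), Complex.exp (t * X.trace)] := by
      congr 1
      funext i
      rw [Pi.coe_exp, ← Complex.exp_eq_exp_ℂ]
      fin_cases i <;> rfl
    rw [hd]
    show Matrix.fromBlocks (NormedSpace.exp (t • X)) 0 0
      (Matrix.diagonal ![((Circle.exp (t * η.im) : Circle) : ℂ), (NormedSpace.exp (t • X)).det]) = _
    rw [det_exp_two, Circle.coe_exp]
    have : ((t * η.im : ℝ) : ℂ) * Complex.I = t * η := by
      conv_rhs => rw [hη']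
      push_cast
      ring
    rw [this]
  · intro h
    choose γ hγ using h
    have hd : ∀ a b, HasDerivAt (fun t : ℝ => (iotaRep (γ t) : Matrix KK KK ℂ) a b) (M a b) 0 := by
      intro a b
      simp only [hγ]
      exact hasDerivAt_exp_entry_zero M a b
    have h0 : (γ 0).1 = 1 := by
      apply Subtype.ext
      ext i j
      rw [← iota_apply_inl_inl, hγ 0, exp_zero_smul]
      simp [Matrix.one_apply]
    refine ⟨?_, ?_, ?_, ?_⟩
    · ext a b
      have e1 : HasDerivAt (fun t : ℝ => (NormedSpace.exp (t • Mᴴ)) a b) (Mᴴ a b) 0 :=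
        hasDerivAt_exp_entry_zero Mᴴ a b
      have e2 : HasDerivAt (fun t : ℝ => (NormedSpace.exp (t • -M)) a b) ((-M) a b) 0 :=
        hasDerivAt_exp_entry_zero (-M) a b
      have e3 : (fun t : ℝ => (NormedSpace.exp (t • Mᴴ)) a b) =
          (fun t : ℝ => (NormedSpace.exp (t • -M)) a b) := by
        funext t
        have hu := Matrix.mem_unitaryGroup_iff'.1 (iotaRep (γ t)).2
        rw [hγ t, Matrix.star_eq_conjTranspose, ← Matrix.exp_conjTranspose,
          Matrix.conjTranspose_smul, star_trivial] at hu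
        have hu2 : NormedSpace.exp (t • M) * NormedSpace.exp (t • -M) = 1 := by
          rw [smul_neg, ← Matrix.exp_add_of_commute _ _ (Commute.neg_right (Commute.refl (t • M))),
            add_neg_cancel, NormedSpace.exp_zero]
        have : NormedSpace.exp (t • Mᴴ) = NormedSpace.exp (t • -M) := by
          calc NormedSpace.exp (t • Mᴴ) = NormedSpace.exp (t • Mᴴ) *
                (NormedSpace.exp (t • M) * NormedSpace.exp (t • -M)) := by rw [hu2, mul_one]
            _ = NormedSpace.exp (t • -M) := by rw [← mul_assoc, hu, one_mul]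
        rw [this]
      rw [e3] at e1
      exact e1.unique e2
    · intro i j
      have e := hd (Sum.inl i) (Sum.inr j)
      simp only [iota_apply_inl_inr] at e
      exact e.unique (hasDerivAt_const _ _)
    · have e := hd (Sum.inr 0) (Sum.inr 1)
      simp only [iota_apply_inr_inr] at e
      refine e.unique ?_
      simpa using hasDerivAt_const (0 : ℝ) (0 : ℂ)
    · have e := hd (Sum.inr 1) (Sum.inr 1)
      have e00 := hd (Sum.inl 0) (Sum.inl 0)
      have e11 := hd (Sum.inl 1) (Sum.inl 1)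
      have e01 := hd (Sum.inl 0) (Sum.inl 1)
      have e10 := hd (Sum.inl 1) (Sum.inl 0)
      simp only [iota_apply_inl_inl, iota_apply_inr_inr, Matrix.det_fin_two] at e e00 e11 e01 e10
      have h := (e00.mul e11).sub (e01.mul e10)
      have hdiag : (fun t : ℝ => (Matrix.diagonal ![((γ t).2 : ℂ),
          (γ t).1.1 0 0 * (γ t).1.1 1 1 - (γ t).1.1 0 1 * (γ t).1.1 1 0] : Matrix (Fin 2) (Fin 2) ℂ)
            1 1) = fun t : ℝ => (γ t).1.1 0 0 * (γ t).1.1 1 1 - (γ t).1.1 0 1 * (γ t).1.1 1 0 := by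
        funext t
        simp
      rw [hdiag] at e
      have := e.unique h
      rw [this]
      simp [h0]

/-! ### The action -/

lemma continuous_blockHom {G : Type} [Group G] [TopologicalSpace G] {a b : Type} [Fintype a]
    [DecidableEq a] [Fintype b] [DecidableEq b] {f : G →* Matrix.unitaryGroup a ℂ}
    {h : G →* Matrix.unitaryGroup b ℂ} (hf : Continuous f) (hh : Continuous h) :
    Continuous (blockHom f h) := by
  refine Continuous.subtype_mk ?_ _
  exact (continuous_subtype_val.comp hf).matrix_fromBlocks continuous_const continuous_const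
    (continuous_subtype_val.comp hh)

lemma continuous_diagHom {G : Type} [Group G] [TopologicalSpace G] {c₀ c₁ : G →* Circle}
    (h₀ : Continuous c₀) (h₁ : Continuous c₁) : Continuous (diagHom c₀ c₁) := by
  refine Continuous.subtype_mk ?_ _
  refine Continuous.matrix_diagonal ?_
  refine continuous_pi fun i => ?_
  fin_cases i
  · exact continuous_subtype_val.comp h₀
  · exact continuous_subtype_val.comp h₁

lemma continuous_detChar : Continuous detChar := by
  refine Continuous.subtype_mk ?_ _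
  exact (continuous_subtype_val.comp continuous_fst).matrix_det

lemma continuous_sndChar : Continuous sndChar := continuous_snd

lemma continuous_stdRep : Continuous stdRep := continuous_fst

lemma continuous_dualRep : Continuous dualRep := by
  refine Continuous.subtype_mk ?_ _
  refine Continuous.smul (continuous_subtype_val.comp continuous_snd) ?_
  exact (continuous_subtype_val.comp continuous_fst).matrix_map Complex.continuous_conj

lemma continuous_iotaRep : Continuous iotaRep :=
  continuous_blockHom continuous_stdRep (continuous_diagHom continuous_sndChar continuous_detChar)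

lemma continuous_rhoRep : Continuous rhoRep :=
  continuous_blockHom (continuous_blockHom continuous_stdRep continuous_stdRep)
    (continuous_blockHom continuous_dualRep (continuous_diagHom continuous_sndChar
      (continuous_sndChar.mul continuous_detChar.inv)))

lemma injective_iotaRep : Function.Injective iotaRep := by
  intro g h hgh
  have h1 : (iotaRep g : Matrix KK KK ℂ) = (iotaRep h : Matrix KK KK ℂ) := by rw [hgh]
  refine Prod.ext ?_ ?_
  · apply Subtype.ext
    ext i j
    rw [← iota_apply_inl_inl, h1, iota_apply_inl_inl]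
  · apply Circle.ext
    have := congrFun (congrFun h1 (Sum.inr 0)) (Sum.inr 0)
    simpa [iota_apply_inr_inr] using this

/-- The infinitesimal action, on all matrices. -/
def dRhoFull : Matrix KK KK ℂ →ₗ[ℝ] Matrix NN NN ℂ where
  toFun M := Matrix.fromBlocks (Matrix.fromBlocks M.toBlocks₁₁ 0 0 M.toBlocks₁₁) 0 0
    (Matrix.fromBlocks (M (Sum.inr 0) (Sum.inr 0) • 1 + M.toBlocks₁₁.map conj) 0 0
      (Matrix.diagonal ![M (Sum.inr 0) (Sum.inr 0),
        M (Sum.inr 0) (Sum.inr 0) + conj (M (Sum.inl 0) (Sum.inl 0) + M (Sum.inl 1) (Sum.inl 1))]))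
  map_add' M N := by
    ext a b
    rcases a with (a | a) | (a | a) <;> rcases b with (b | b) | (b | b) <;>
      simp [Matrix.toBlocks₁₁, add_mul]
    · ring
    · fin_cases a <;> fin_cases b <;> simp
      ring
  map_smul' c M := by
    ext a b
    rcases a with (a | a) | (a | a) <;> rcases b with (b | b) | (b | b) <;>
      simp [Matrix.toBlocks₁₁, mul_assoc]
    · fin_cases a <;> fin_cases b <;> simp
      ring

lemma hasDerivAt_rhoRep (M : Matrix KK KK ℂ) (γ : ℝ → GG)
    (hγ : ∀ t : ℝ, (iotaRep (γ t) : Matrix KK KK ℂ) = NormedSpace.exp (t • M)) (a b : NN) :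
    HasDerivAt (fun t : ℝ => (rhoRep (γ t) : Matrix NN NN ℂ) a b) (dRhoFull M a b) 0 := by
  have hd : ∀ a b, HasDerivAt (fun t : ℝ => (iotaRep (γ t) : Matrix KK KK ℂ) a b) (M a b) 0 := by
    intro a b
    simp only [hγ]
    exact hasDerivAt_exp_entry_zero M a b
  have h0 : iotaRep (γ 0) = 1 := by
    apply Subtype.ext
    rw [hγ 0, exp_zero_smul]
    rfl
  have h00 : γ 0 = 1 := injective_iotaRep (by rw [h0, map_one])
  have hg : ∀ i j : Fin 2, HasDerivAt (fun t : ℝ => (γ t).1.1 i j)
      (M (Sum.inl i) (Sum.inl j)) 0 := fun i j => hd (Sum.inl i) (Sum.inl j)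
  have hs : HasDerivAt (fun t : ℝ => ((γ t).2 : ℂ)) (M (Sum.inr 0) (Sum.inr 0)) 0 := by
    have e := hd (Sum.inr 0) (Sum.inr 0)
    simpa [iota_apply_inr_inr] using e
  have hgc : ∀ i j : Fin 2, HasDerivAt (fun t : ℝ => conj ((γ t).1.1 i j))
      (conj (M (Sum.inl i) (Sum.inl j))) 0 := fun i j =>
    (Complex.conjCLE.toContinuousLinearMap.hasFDerivAt.comp_hasDerivAt (0 : ℝ) (hg i j))
  have hdet : HasDerivAt (fun t : ℝ => conj ((γ t).1.1.det))
      (conj (M (Sum.inl 0) (Sum.inl 0) + M (Sum.inl 1) (Sum.inl 1))) 0 := by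
    have h := ((hg 0 0).mul (hg 1 1)).sub ((hg 0 1).mul (hg 1 0))
    have h' : HasDerivAt (fun t : ℝ => (γ t).1.1.det)
        (M (Sum.inl 0) (Sum.inl 0) + M (Sum.inl 1) (Sum.inl 1)) 0 := by
      have e : (fun t : ℝ => (γ t).1.1.det) = (fun t : ℝ => (γ t).1.1 0 0 * (γ t).1.1 1 1 -
          (γ t).1.1 0 1 * (γ t).1.1 1 0) := by
        funext t
        exact Matrix.det_fin_two _
      have e' : M (Sum.inl 0) (Sum.inl 0) + M (Sum.inl 1) (Sum.inl 1) =
          M (Sum.inl 0) (Sum.inl 0) * (γ 0).1.1 1 1 + (γ 0).1.1 0 0 * M (Sum.inl 1) (Sum.inl 1) -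
          (M (Sum.inl 0) (Sum.inl 1) * (γ 0).1.1 1 0 +
            (γ 0).1.1 0 1 * M (Sum.inl 1) (Sum.inl 0)) := by
        rw [h00]
        simp
      rw [e, e']
      exact h
    exact (Complex.conjCLE.toContinuousLinearMap.hasFDerivAt.comp_hasDerivAt (0 : ℝ) h')
  rcases a with (a | a) | (a | a) <;> rcases b with (b | b) | (b | b)
  · exact hg a b
  · exact hasDerivAt_const _ _
  · exact hasDerivAt_const _ _
  · exact hasDerivAt_const _ _
  · exact hasDerivAt_const _ _
  · exact hg a b
  · exact hasDerivAt_const _ _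
  · exact hasDerivAt_const _ _
  · exact hasDerivAt_const _ _
  · exact hasDerivAt_const _ _
  · have h := hs.mul (hgc a b)
    have e : dRhoFull M (Sum.inr (Sum.inl a)) (Sum.inr (Sum.inl b)) =
        M (Sum.inr 0) (Sum.inr 0) * conj ((γ 0).1.1 a b) +
          ((γ 0).2 : ℂ) * conj (M (Sum.inl a) (Sum.inl b)) := by
      rw [h00]
      simp [dRhoFull, Matrix.toBlocks₁₁, Matrix.one_apply]
    rw [e]
    exact h
  · exact hasDerivAt_const _ _
  · exact hasDerivAt_const _ _
  · exact hasDerivAt_const _ _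
  · exact hasDerivAt_const _ _
  · show HasDerivAt (fun t : ℝ => (Matrix.diagonal ![((γ t).2 : ℂ),
      ((sndChar (γ t) * (detChar (γ t))⁻¹ : Circle) : ℂ)] : Matrix (Fin 2) (Fin 2) ℂ) a b)
      ((Matrix.diagonal ![M (Sum.inr 0) (Sum.inr 0),
        M (Sum.inr 0) (Sum.inr 0) + conj (M (Sum.inl 0) (Sum.inl 0) + M (Sum.inl 1) (Sum.inl 1))] :
        Matrix (Fin 2) (Fin 2) ℂ) a b) 0
    fin_cases a <;> fin_cases b
    · simpa using hs
    · simpa using hasDerivAt_const (0 : ℝ) (0 : ℂ)
    · simpa using hasDerivAt_const (0 : ℝ) (0 : ℂ)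
    · have h := hs.mul hdet
      have e1 : (fun t : ℝ => (Matrix.diagonal ![((γ t).2 : ℂ),
          ((sndChar (γ t) * (detChar (γ t))⁻¹ : Circle) : ℂ)] : Matrix (Fin 2) (Fin 2) ℂ) 1 1) =
          (fun t : ℝ => ((γ t).2 : ℂ) * conj ((γ t).1.1.det)) := by
        funext t
        simp only [Matrix.diagonal_apply_eq, Matrix.cons_val_one, Matrix.cons_val_fin_one,
          Circle.coe_mul, Circle.coe_inv_eq_conj, detChar_coe]
        rfl
      have e2 : (Matrix.diagonal ![M (Sum.inr 0) (Sum.inr 0),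
        M (Sum.inr 0) (Sum.inr 0) + conj (M (Sum.inl 0) (Sum.inl 0) + M (Sum.inl 1) (Sum.inl 1))] :
        Matrix (Fin 2) (Fin 2) ℂ) 1 1 = M (Sum.inr 0) (Sum.inr 0) * conj ((γ 0).1.1.det) +
          ((γ 0).2 : ℂ) * conj (M (Sum.inl 0) (Sum.inl 0) + M (Sum.inl 1) (Sum.inl 1)) := by
        rw [h00]
        simp
      show HasDerivAt (fun t : ℝ => (Matrix.diagonal ![((γ t).2 : ℂ),
          ((sndChar (γ t) * (detChar (γ t))⁻¹ : Circle) : ℂ)] : Matrix (Fin 2) (Fin 2) ℂ) 1 1)
        ((Matrix.diagonal ![M (Sum.inr 0) (Sum.inr 0),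
        M (Sum.inr 0) (Sum.inr 0) + conj (M (Sum.inl 0) (Sum.inl 0) + M (Sum.inl 1) (Sum.inl 1))] :
        Matrix (Fin 2) (Fin 2) ℂ) 1 1) 0
      rw [e1, e2]
      exact h

/-- The action of `U(2) × U(1)` on `ℂ² ⊕ ℂ² ⊕ ℂ² ⊕ ℂ ⊕ ℂ`. -/
def exAction : UnitaryAction GG KK NN where
  ι := iotaRep
  continuous_ι := continuous_iotaRep
  injective_ι := injective_iotaRep
  lie := lieEx
  mem_lie := mem_lieEx
  ρ := rhoRep
  continuous_ρ := continuous_rhoRep
  dρ := dRhoFull.domRestrict lieEx
  hasDerivAt_ρ := fun ξ γ hγ a b => hasDerivAt_rhoRep ξ γ hγ a b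

end Pool.Agent.Lib.Pc41d74
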