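import Pool.Agent.Lib.Pc41d74.Path

/-!
# The group `U(2) × U(1)` is compact, connected and not abelian
-/

open Set Topology Filter
open scoped ComplexConjugate Matrix InnerProductSpace

noncomputable section

namespace Pool.Agent.Lib.Pc41d74

instance compactSpace_unitary : CompactSpace (Matrix.unitaryGroup (Fin 2) ℂ) := by
  have hK : IsCompact {M : Matrix (Fin 2) (Fin 2) ℂ | ∀ i, M i ∈
      {v : Fin 2 → ℂ | ∀ j, v j ∈ Metric.closedBall (0 : ℂ) 1}} := by
    refine isCompact_pi_infinite (fun _ => ?_)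
    exact isCompact_pi_infinite (fun _ => isCompact_closedBall _ _)
  refine (isCompact_iff_compactSpace (s := {M : Matrix (Fin 2) (Fin 2) ℂ |
    M ∈ Matrix.unitaryGroup (Fin 2) ℂ})).1 ?_
  refine hK.of_isClosed_subset isClosed_unitary ?_
  intro M hM i j
  rw [mem_closedBall_zero_iff]
  exact entry_norm_bound_of_unitary hM i j

instance connectedSpace_circle : ConnectedSpace Circle :=
  Circle.exp_surjective.connectedSpace Circle.exp.continuous

/-- A parametrisation of `U(2)` by the three-sphere and the circle. -/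
def param (p : Metric.sphere (0 : EuclideanSpace ℂ (Fin 2)) 1 × Circle) :
    Matrix (Fin 2) (Fin 2) ℂ :=
  !![p.1.1 0, -conj (p.1.1 1) * (p.2 : ℂ); p.1.1 1, conj (p.1.1 0) * (p.2 : ℂ)]

lemma sphere_norm (v : Metric.sphere (0 : EuclideanSpace ℂ (Fin 2)) 1) :
    v.1 0 * conj (v.1 0) + v.1 1 * conj (v.1 1) = 1 := by
  have h := mem_sphere_zero_iff_norm.1 v.2
  rw [EuclideanSpace.norm_eq, Real.sqrt_eq_one, Fin.sum_univ_two] at h
  rw [Complex.mul_conj, Complex.mul_conj, Complex.normSq_eq_norm_sq, Complex.normSq_eq_norm_sq,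
    ← Complex.ofReal_add, ← Complex.ofReal_one]
  exact congrArg _ h

lemma param_mem (p : Metric.sphere (0 : EuclideanSpace ℂ (Fin 2)) 1 × Circle) :
    param p ∈ Matrix.unitaryGroup (Fin 2) ℂ := by
  rw [Matrix.mem_unitaryGroup_iff']
  have h := sphere_norm p.1
  have hc : (p.2 : ℂ) * conj (p.2 : ℂ) = 1 := by
    rw [Complex.mul_conj, Complex.normSq_eq_norm_sq, Circle.norm_coe]
    simp
  ext i j
  fin_cases i <;> fin_cases j <;>
    simp [param, Matrix.mul_apply, Fin.sum_univ_two]
  · linear_combination h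
  · ring
  · ring
  · linear_combination (p.2 : ℂ) * conj (p.2 : ℂ) * h + hc

instance connectedSpace_unitary : ConnectedSpace (Matrix.unitaryGroup (Fin 2) ℂ) := by
  have hs : IsConnected (Metric.sphere (0 : EuclideanSpace ℂ (Fin 2)) 1) := by
    refine isConnected_sphere ?_ _ zero_le_one
    rw [← Module.finrank_eq_rank ℝ, finrank_real_of_complex, finrank_euclideanSpace_fin]
    norm_num
  have : ConnectedSpace (Metric.sphere (0 : EuclideanSpace ℂ (Fin 2)) 1) :=
    isConnected_iff_connectedSpace.1 hs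
  let f : Metric.sphere (0 : EuclideanSpace ℂ (Fin 2)) 1 × Circle → Matrix.unitaryGroup (Fin 2) ℂ :=
    fun p => ⟨param p, param_mem p⟩
  have hf : Continuous f := by
    refine Continuous.subtype_mk ?_ _
    refine continuous_matrix ?_
    have h0 : ∀ i, Continuous (fun p : Metric.sphere (0 : EuclideanSpace ℂ (Fin 2)) 1 × Circle =>
        p.1.1 i) := by
      intro i
      fun_prop
    have h2 : Continuous (fun p : Metric.sphere (0 : EuclideanSpace ℂ (Fin 2)) 1 × Circle =>
        (p.2 : ℂ)) := by
      fun_prop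
    intro i j
    fin_cases i <;> fin_cases j
    · exact h0 0
    · exact ((Complex.continuous_conj.comp (h0 1)).neg).mul h2
    · exact h0 1
    · exact (Complex.continuous_conj.comp (h0 0)).mul h2
  have hsurj : Function.Surjective f := by
    intro g
    have hu := Matrix.mem_unitaryGroup_iff'.1 g.2
    have h00 := congrFun (congrFun hu 0) 0
    have h01 := congrFun (congrFun hu 0) 1
    simp only [Matrix.mul_apply, Fin.sum_univ_two, Matrix.star_apply, Complex.star_def,
      Matrix.one_apply_eq, ne_eq, zero_ne_one, not_false_eq_true, Matrix.one_apply_ne] at h00 h01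
    have hv : (WithLp.toLp 2 ![g.1 0 0, g.1 1 0] : EuclideanSpace ℂ (Fin 2)) ∈
        Metric.sphere (0 : EuclideanSpace ℂ (Fin 2)) 1 := by
      rw [mem_sphere_zero_iff_norm, EuclideanSpace.norm_eq, Real.sqrt_eq_one, Fin.sum_univ_two]
      rw [mul_comm, Complex.mul_conj, mul_comm, Complex.mul_conj, Complex.normSq_eq_norm_sq,
        Complex.normSq_eq_norm_sq] at h00
      exact_mod_cast h00
    refine ⟨(⟨_, hv⟩, detChar (g, 1)), ?_⟩
    apply Subtype.ext
    show param _ = g.1
    have hd : (detChar (g, 1) : ℂ) = g.1 0 0 * g.1 1 1 - g.1 0 1 * g.1 1 0 := by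
      rw [detChar_coe, Matrix.det_fin_two]
    ext i j
    fin_cases i <;> fin_cases j
    · simp [param]
    · simp only [param]
      show -conj (g.1 1 0) * (detChar (g, 1) : ℂ) = g.1 0 1
      rw [hd]
      linear_combination (g.1 0 1) * h00 - (g.1 0 0) * h01
    · simp [param]
    · show conj (g.1 0 0) * (detChar (g, 1) : ℂ) = g.1 1 1
      rw [hd]
      linear_combination (g.1 1 1) * h00 - (g.1 1 0) * h01
  exact hsurj.connectedSpace hf

lemma not_commutative : ∃ g h : GG, g * h ≠ h * g := by
  refine ⟨g2, kElt (Circle.exp Real.pi), ?_⟩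
  intro h
  have h1 := congrArg (fun g : GG => g.1.1 0 1) h
  simp [g2, kElt, Matrix.vecMul_diagonal] at h1
  have h2 := congrArg Complex.re h1
  norm_num at h2

end Pool.Agent.Lib.Pc41d74
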