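import Pool.Agent.Lib.Pc41d74.Defs

/-!
# General facts on the moment map
-/

open Set Topology Filter
open scoped ComplexConjugate Matrix

noncomputable section

namespace Pool.Agent.Lib.Pc41d74

set_option linter.unusedSectionVars false

variable {ν : Type} [Fintype ν] [DecidableEq ν]

lemma omega_add_left (u u' v : ν → ℂ) : omega (u + u') v = omega u v + omega u' v := by
  simp [omega, add_dotProduct]

lemma omega_add_right (u v v' : ν → ℂ) : omega u (v + v') = omega u v + omega u v' := by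
  simp [omega, dotProduct_add]

lemma omega_smul_left (c : ℝ) (u v : ν → ℂ) : omega (c • u) v = c * omega u v := by
  simp [omega, smul_dotProduct]

lemma omega_smul_right (c : ℝ) (u v : ν → ℂ) : omega u (c • v) = c * omega u v := by
  simp [omega, dotProduct_smul]

/-- For skew-Hermitian `B` the form `ω(u, B v)` is symmetric. -/
lemma omega_skew {B : Matrix ν ν ℂ} (hB : Bᴴ = -B) (u v : ν → ℂ) :
    omega u (B *ᵥ v) = omega v (B *ᵥ u) := by
  have h : star (star u ⬝ᵥ (B *ᵥ v)) = -(star v ⬝ᵥ (B *ᵥ u)) := by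
    rw [Matrix.star_dotProduct, star_star, Matrix.star_mulVec, hB, Matrix.vecMul_neg,
      neg_dotProduct, ← Matrix.dotProduct_mulVec]
  have := congrArg Complex.im h
  simp only [Complex.star_def, Complex.conj_im, Complex.neg_im] at this
  unfold omega
  linarith

namespace UnitaryAction

variable {G : Type} [Group G] [TopologicalSpace G] {κ : Type}
  [Fintype κ] [DecidableEq κ] (A : UnitaryAction G κ ν)

lemma moment_apply (z : ν → ℂ) (ξ : A.lie) :
    A.moment z ξ = (1 / 2) * omega z (A.dρ ξ *ᵥ z) := rfl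

lemma differentiable_moment (ξ : A.lie) : Differentiable ℝ (fun z => A.moment z ξ) := by
  simp only [moment_apply, omega, dotProduct, Matrix.mulVec, Pi.star_apply]
  have h : Differentiable ℝ (fun z : ν → ℂ => ∑ i, star (z i) * ∑ j, A.dρ ξ i j * z j) := by
    fun_prop
  exact (Complex.imCLM.differentiable.comp h).const_mul _

lemma fderiv_moment (ξ : A.lie) (hB : (A.dρ ξ)ᴴ = -(A.dρ ξ)) (z u : ν → ℂ) :
    fderiv ℝ (fun z => A.moment z ξ) z u = omega u (A.dρ ξ *ᵥ z) := by
  rw [← (A.differentiable_moment ξ z).lineDeriv_eq_fderiv]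
  have h : ∀ t : ℝ, A.moment (z + t • u) ξ =
      A.moment z ξ + omega u (A.dρ ξ *ᵥ z) * t + A.moment u ξ * t ^ 2 := by
    intro t
    simp only [moment_apply, Matrix.mulVec_add, Matrix.mulVec_smul, omega_add_left,
      omega_add_right, omega_smul_left, omega_smul_right]
    rw [omega_skew hB z u]
    ring
  have h2 : HasDerivAt (fun t : ℝ => A.moment (z + t • u) ξ) (omega u (A.dρ ξ *ᵥ z)) 0 := by
    have h3 : HasDerivAt (fun t : ℝ => A.moment z ξ + omega u (A.dρ ξ *ᵥ z) * t +
        A.moment u ξ * t ^ 2) (0 + omega u (A.dρ ξ *ᵥ z) * 1 + A.moment u ξ * (2 * 0 ^ 1 * 1)) 0 := by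
      refine ((hasDerivAt_const _ _).add ((hasDerivAt_id' (0 : ℝ)).const_mul _)).add ?_
      simpa using ((hasDerivAt_id' (0 : ℝ)).pow 2).const_mul (A.moment u ξ)
    simp only [h]
    simpa using h3
  exact h2.deriv

/-- Every real linear functional on `ℂ^ν` is of the form `ω(u, ·)`. -/
lemma exists_omega (β : (ν → ℂ) →ₗ[ℝ] ℝ) : ∃ u : ν → ℂ, ∀ v, omega u v = β v := by
  refine ⟨fun i => ⟨β (Pi.single i Complex.I), -β (Pi.single i 1)⟩, fun v => ?_⟩
  have hv : v = ∑ i, ((v i).re • (Pi.single i (1 : ℂ) : ν → ℂ) +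
      (v i).im • (Pi.single i Complex.I : ν → ℂ)) := by
    funext j
    simp only [Finset.sum_apply, Pi.add_apply, Pi.smul_apply, Pi.single_apply]
    rw [Finset.sum_eq_single j]
    · simp
    · intro b _ hb
      simp [hb.symm]
    · simp
  conv_rhs => rw [hv]
  rw [map_sum]
  simp only [map_add, map_smul, omega, dotProduct, Complex.im_sum, Pi.star_apply, smul_eq_mul,
    Complex.mul_im, Complex.star_def, Complex.conj_re, Complex.conj_im]
  refine Finset.sum_congr rfl fun i _ => ?_
  ring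

/-- A value is regular if the infinitesimal action is injective on the level set. -/
lemma isRegularValue_of_injective (hB : ∀ ξ, (A.dρ ξ)ᴴ = -(A.dρ ξ)) (α : A.lie →ₗ[ℝ] ℝ)
    (h : ∀ z ∈ A.level α, ∀ ξ : A.lie, A.dρ ξ *ᵥ z = 0 → ξ = 0) : A.IsRegularValue α := by
  intro z hz β
  let T : A.lie →ₗ[ℝ] (ν → ℂ) :=
    { toFun := fun ξ => A.dρ ξ *ᵥ z
      map_add' := fun ξ η => by rw [map_add, Matrix.add_mulVec]
      map_smul' := fun c ξ => by rw [map_smul, Matrix.smul_mulVec]; rfl }
  have hT : LinearMap.ker T = ⊥ := by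
    rw [LinearMap.ker_eq_bot']
    exact fun ξ hξ => h z hz ξ hξ
  obtain ⟨g, hg⟩ := LinearMap.exists_leftInverse_of_injective T hT
  obtain ⟨u, hu⟩ := exists_omega (β.comp g)
  refine ⟨u, fun ξ => ?_⟩
  rw [A.fderiv_moment ξ (hB ξ), hu]
  show β (g (T ξ)) = β ξ
  have := LinearMap.congr_fun hg ξ
  simp only [LinearMap.comp_apply, LinearMap.id_apply] at this
  rw [this]

/-- If a nonzero Lie algebra element kills a point of the level set then the value is not
regular. -/
lemma not_isRegularValue (α : A.lie →ₗ[ℝ] ℝ) (z : ν → ℂ) (hz : z ∈ A.level α) (ξ : A.lie)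
    (hB : (A.dρ ξ)ᴴ = -(A.dρ ξ)) (hξ : ξ ≠ 0) (h : A.dρ ξ *ᵥ z = 0) : ¬ A.IsRegularValue α := by
  intro hreg
  apply hξ
  rw [← Module.forall_dual_apply_eq_zero_iff ℝ ξ]
  intro β
  obtain ⟨u, hu⟩ := hreg z hz β
  rw [← hu ξ, A.fderiv_moment ξ hB, h]
  simp [omega]

end UnitaryAction

end Pool.Agent.Lib.Pc41d74
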