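import Pool.Agent.Lib.Pc41d74.Example
import Pool.Agent.Lib.Pc41d74.Moment

/-!
# The level sets of the moment map of the example
-/

open Set Topology Filter
open scoped ComplexConjugate Matrix

noncomputable section

namespace Pool.Agent.Lib.Pc41d74

/-- The semi-invariant: the determinant of the two first vectors. -/
def DD (z : NN → ℂ) : ℂ :=
  z (Sum.inl (Sum.inl 0)) * z (Sum.inl (Sum.inr 1)) -
    z (Sum.inl (Sum.inl 1)) * z (Sum.inl (Sum.inr 0))

lemma continuous_DD : Continuous DD := by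
  unfold DD
  fun_prop

lemma act_a (g : GG) (z : NN → ℂ) (i : Fin 2) : exAction.act g z (Sum.inl (Sum.inl i)) =
    g.1.1 i 0 * z (Sum.inl (Sum.inl 0)) + g.1.1 i 1 * z (Sum.inl (Sum.inl 1)) := by
  show ((rhoRep g : Matrix NN NN ℂ) *ᵥ z) _ = _
  simp [rhoRep, blockHom, Matrix.mulVec, dotProduct, stdRep]

lemma act_b (g : GG) (z : NN → ℂ) (i : Fin 2) : exAction.act g z (Sum.inl (Sum.inr i)) =
    g.1.1 i 0 * z (Sum.inl (Sum.inr 0)) + g.1.1 i 1 * z (Sum.inl (Sum.inr 1)) := by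
  show ((rhoRep g : Matrix NN NN ℂ) *ᵥ z) _ = _
  simp [rhoRep, blockHom, Matrix.mulVec, dotProduct, stdRep]

lemma act_w (g : GG) (z : NN → ℂ) (i : Fin 2) : exAction.act g z (Sum.inr (Sum.inl i)) =
    (g.2 : ℂ) * conj (g.1.1 i 0) * z (Sum.inr (Sum.inl 0)) +
      (g.2 : ℂ) * conj (g.1.1 i 1) * z (Sum.inr (Sum.inl 1)) := by
  show ((rhoRep g : Matrix NN NN ℂ) *ᵥ z) _ = _
  simp [rhoRep, blockHom, Matrix.mulVec, dotProduct, dualRep]

lemma act_y0 (g : GG) (z : NN → ℂ) : exAction.act g z (Sum.inr (Sum.inr 0)) =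
    (g.2 : ℂ) * z (Sum.inr (Sum.inr 0)) := by
  show ((rhoRep g : Matrix NN NN ℂ) *ᵥ z) _ = _
  simp [rhoRep, blockHom, Matrix.mulVec, dotProduct, diagHom, sndChar]

lemma act_y1 (g : GG) (z : NN → ℂ) : exAction.act g z (Sum.inr (Sum.inr 1)) =
    (g.2 : ℂ) * conj (g.1.1.det) * z (Sum.inr (Sum.inr 1)) := by
  show ((rhoRep g : Matrix NN NN ℂ) *ᵥ z) _ = _
  simp [rhoRep, blockHom, Matrix.mulVec, dotProduct, diagHom, sndChar, detChar_coe]
  left
  rw [← detChar_coe, ← Circle.coe_inv, Circle.coe_inv_eq_conj]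

lemma DD_act (g : GG) (z : NN → ℂ) : DD (exAction.act g z) = detChar g * DD z := by
  rw [DD, act_a, act_a, act_b, act_b, detChar_coe, Matrix.det_fin_two, DD]
  ring

lemma hasChar : exAction.HasChar (Sum.inr 1) detChar := by
  constructor
  intro g j
  show (iotaRep g : Matrix KK KK ℂ) (Sum.inr 1) j = _
  rcases j with j | j
  · simp [iota_apply_inr_inl]
  · rw [iota_apply_inr_inr, detChar_coe]
    fin_cases j <;> simp

/-! ### The infinitesimal action -/

lemma dact_a (ξ : lieEx) (z : NN → ℂ) (i : Fin 2) :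
    (exAction.dρ ξ *ᵥ z) (Sum.inl (Sum.inl i)) =
      ξ.1 (Sum.inl i) (Sum.inl 0) * z (Sum.inl (Sum.inl 0)) +
        ξ.1 (Sum.inl i) (Sum.inl 1) * z (Sum.inl (Sum.inl 1)) := by
  show ((dRhoFull ξ.1) *ᵥ z) _ = _
  simp [dRhoFull, Matrix.mulVec, dotProduct, Matrix.toBlocks₁₁]

lemma dact_b (ξ : lieEx) (z : NN → ℂ) (i : Fin 2) :
    (exAction.dρ ξ *ᵥ z) (Sum.inl (Sum.inr i)) =
      ξ.1 (Sum.inl i) (Sum.inl 0) * z (Sum.inl (Sum.inr 0)) +
        ξ.1 (Sum.inl i) (Sum.inl 1) * z (Sum.inl (Sum.inr 1)) := by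
  show ((dRhoFull ξ.1) *ᵥ z) _ = _
  simp [dRhoFull, Matrix.mulVec, dotProduct, Matrix.toBlocks₁₁]

lemma dact_w (ξ : lieEx) (z : NN → ℂ) (i : Fin 2) :
    (exAction.dρ ξ *ᵥ z) (Sum.inr (Sum.inl i)) =
      ξ.1 (Sum.inr 0) (Sum.inr 0) * z (Sum.inr (Sum.inl i)) +
      conj (ξ.1 (Sum.inl i) (Sum.inl 0)) * z (Sum.inr (Sum.inl 0)) +
        conj (ξ.1 (Sum.inl i) (Sum.inl 1)) * z (Sum.inr (Sum.inl 1)) := by
  show ((dRhoFull ξ.1) *ᵥ z) _ = _
  fin_cases i <;> simp [dRhoFull, Matrix.mulVec, dotProduct, Matrix.toBlocks₁₁] <;> ring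

lemma dact_y0 (ξ : lieEx) (z : NN → ℂ) :
    (exAction.dρ ξ *ᵥ z) (Sum.inr (Sum.inr 0)) =
      ξ.1 (Sum.inr 0) (Sum.inr 0) * z (Sum.inr (Sum.inr 0)) := by
  show ((dRhoFull ξ.1) *ᵥ z) _ = _
  simp [dRhoFull, Matrix.mulVec, dotProduct]

lemma dact_y1 (ξ : lieEx) (z : NN → ℂ) :
    (exAction.dρ ξ *ᵥ z) (Sum.inr (Sum.inr 1)) =
      (ξ.1 (Sum.inr 0) (Sum.inr 0) + conj (ξ.1 (Sum.inl 0) (Sum.inl 0)) +
        conj (ξ.1 (Sum.inl 1) (Sum.inl 1))) * z (Sum.inr (Sum.inr 1)) := by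
  show ((dRhoFull ξ.1) *ᵥ z) _ = _
  simp [dRhoFull, Matrix.mulVec, dotProduct]
  left
  ring

lemma star_lieEx (ξ : lieEx) (a b : KK) : conj (ξ.1 b a) = -ξ.1 a b := by
  have := congrFun (congrFun ξ.2.1 a) b
  simpa [Matrix.conjTranspose_apply] using this

lemma star_lieEx' (ξ : lieEx) (a b : KK) : ξ.1 b a = -conj (ξ.1 a b) := by
  rw [star_lieEx, neg_neg]

lemma dRho_skew (ξ : lieEx) : (exAction.dρ ξ)ᴴ = -(exAction.dρ ξ) := by
  show (dRhoFull ξ.1)ᴴ = -(dRhoFull ξ.1)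
  have hX : (ξ.1.toBlocks₁₁)ᴴ = -ξ.1.toBlocks₁₁ := by
    ext a b
    simpa [Matrix.conjTranspose_apply, Matrix.toBlocks₁₁] using
      star_lieEx ξ (Sum.inl a) (Sum.inl b)
  have hY : (ξ.1 (Sum.inr 0) (Sum.inr 0) • (1 : Matrix (Fin 2) (Fin 2) ℂ) +
      ξ.1.toBlocks₁₁.map conj)ᴴ = -(ξ.1 (Sum.inr 0) (Sum.inr 0) • (1 : Matrix (Fin 2) (Fin 2) ℂ) +
      ξ.1.toBlocks₁₁.map conj) := by
    ext a b
    have h1 := star_lieEx' ξ (Sum.inl a) (Sum.inl b)
    have h2 := star_lieEx ξ (Sum.inr 0) (Sum.inr 0)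
    simp only [Matrix.conjTranspose_apply, Matrix.add_apply, Matrix.smul_apply, Matrix.map_apply,
      Matrix.toBlocks₁₁, Matrix.of_apply, smul_eq_mul, Matrix.neg_apply, star_add, star_mul',
      Complex.star_def, Complex.conj_conj, h1, h2, Matrix.one_apply]
    rcases eq_or_ne a b with h | h
    · subst h
      simp
      ring
    · simp [h, h.symm]
  have hZ : ((Matrix.diagonal ![ξ.1 (Sum.inr 0) (Sum.inr 0), ξ.1 (Sum.inr 0) (Sum.inr 0) +
      conj (ξ.1 (Sum.inl 0) (Sum.inl 0) + ξ.1 (Sum.inl 1) (Sum.inl 1))] :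
        Matrix (Fin 2) (Fin 2) ℂ))ᴴ = -(Matrix.diagonal ![ξ.1 (Sum.inr 0) (Sum.inr 0),
      ξ.1 (Sum.inr 0) (Sum.inr 0) +
      conj (ξ.1 (Sum.inl 0) (Sum.inl 0) + ξ.1 (Sum.inl 1) (Sum.inl 1))]) := by
    rw [Matrix.diagonal_conjTranspose, Matrix.diagonal_neg]
    congr 1
    have h0 := star_lieEx ξ (Sum.inl 0) (Sum.inl 0)
    have h1 := star_lieEx ξ (Sum.inl 1) (Sum.inl 1)
    have h2 := star_lieEx ξ (Sum.inr 0) (Sum.inr 0)
    funext i
    fin_cases i
    · simpa using h2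
    · simp [h0, h1, h2]
      ring
  show (Matrix.fromBlocks (Matrix.fromBlocks ξ.1.toBlocks₁₁ 0 0 ξ.1.toBlocks₁₁) 0 0
    (Matrix.fromBlocks (ξ.1 (Sum.inr 0) (Sum.inr 0) • 1 + ξ.1.toBlocks₁₁.map conj) 0 0
      (Matrix.diagonal ![ξ.1 (Sum.inr 0) (Sum.inr 0), ξ.1 (Sum.inr 0) (Sum.inr 0) +
      conj (ξ.1 (Sum.inl 0) (Sum.inl 0) + ξ.1 (Sum.inl 1) (Sum.inl 1))])))ᴴ = -_
  rw [Matrix.fromBlocks_conjTranspose, Matrix.fromBlocks_conjTranspose,
    Matrix.fromBlocks_conjTranspose, hX, hY, hZ]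
  simp only [Matrix.conjTranspose_zero]
  show _ = -(Matrix.fromBlocks (Matrix.fromBlocks ξ.1.toBlocks₁₁ 0 0 ξ.1.toBlocks₁₁) 0 0
    (Matrix.fromBlocks (ξ.1 (Sum.inr 0) (Sum.inr 0) • 1 + ξ.1.toBlocks₁₁.map conj) 0 0
      (Matrix.diagonal ![ξ.1 (Sum.inr 0) (Sum.inr 0), ξ.1 (Sum.inr 0) (Sum.inr 0) +
      conj (ξ.1 (Sum.inl 0) (Sum.inl 0) + ξ.1 (Sum.inl 1) (Sum.inl 1))])))
  rw [Matrix.fromBlocks_neg, Matrix.fromBlocks_neg, Matrix.fromBlocks_neg]
  simp only [neg_zero]

/-! ### The moment map -/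

lemma moment_apply' (z : NN → ℂ) (ξ : lieEx) :
    exAction.moment z ξ = (1 / 2) * omega z (exAction.dρ ξ *ᵥ z) := rfl

lemma re_diag (ξ : lieEx) (a : KK) : (ξ.1 a a).re = 0 := by
  have h := congrArg Complex.re (star_lieEx ξ a a)
  simp only [Complex.conj_re, Complex.neg_re] at h
  linarith

lemma moment_formula (z : NN → ℂ) (ξ : lieEx) : exAction.moment z ξ =
    (1 / 2) * ((ξ.1 (Sum.inl 0) (Sum.inl 0)).im *
        (Complex.normSq (z (Sum.inl (Sum.inl 0))) + Complex.normSq (z (Sum.inl (Sum.inr 0))) -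
          Complex.normSq (z (Sum.inr (Sum.inl 0))) - Complex.normSq (z (Sum.inr (Sum.inr 1)))) +
      (ξ.1 (Sum.inl 1) (Sum.inl 1)).im *
        (Complex.normSq (z (Sum.inl (Sum.inl 1))) + Complex.normSq (z (Sum.inl (Sum.inr 1))) -
          Complex.normSq (z (Sum.inr (Sum.inl 1))) - Complex.normSq (z (Sum.inr (Sum.inr 1)))) +
      (ξ.1 (Sum.inr 0) (Sum.inr 0)).im *
        (Complex.normSq (z (Sum.inr (Sum.inl 0))) + Complex.normSq (z (Sum.inr (Sum.inl 1))) +
          Complex.normSq (z (Sum.inr (Sum.inr 0))) + Complex.normSq (z (Sum.inr (Sum.inr 1))))) +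
      (ξ.1 (Sum.inl 0) (Sum.inl 1) * (conj (z (Sum.inl (Sum.inl 0))) * z (Sum.inl (Sum.inl 1)) +
        conj (z (Sum.inl (Sum.inr 0))) * z (Sum.inl (Sum.inr 1)) -
        conj (z (Sum.inr (Sum.inl 1))) * z (Sum.inr (Sum.inl 0)))).im := by
  have h10 := star_lieEx' ξ (Sum.inl 0) (Sum.inl 1)
  have r00 := re_diag ξ (Sum.inl 0)
  have r11 := re_diag ξ (Sum.inl 1)
  have r22 := re_diag ξ (Sum.inr 0)
  rw [moment_apply', omega, dotProduct, Fintype.sum_sum_type, Fintype.sum_sum_type,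
    Fintype.sum_sum_type]
  simp only [Fin.sum_univ_two, dact_a, dact_b, dact_w, dact_y0, dact_y1, Pi.star_apply, h10,
    Complex.star_def]
  simp only [Complex.add_im, Complex.mul_im, Complex.mul_re, Complex.add_re, Complex.conj_re,
    Complex.conj_im, Complex.neg_re, Complex.neg_im, Complex.sub_re, Complex.sub_im,
    Complex.normSq_apply, r00, r11, r22]
  ring

/-! ### Central functionals -/

/-- Diagonal elements of the Lie algebra. -/
def hElt (p q s : ℝ) : lieEx :=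
  ⟨Matrix.fromBlocks (Matrix.diagonal ![(p : ℂ) * Complex.I, (q : ℂ) * Complex.I]) 0 0
      (Matrix.diagonal ![(s : ℂ) * Complex.I, ((p + q : ℝ) : ℂ) * Complex.I]), by
    refine ⟨?_, ?_, ?_, ?_⟩
    · rw [Matrix.fromBlocks_conjTranspose, Matrix.diagonal_conjTranspose,
        Matrix.diagonal_conjTranspose, Matrix.fromBlocks_neg, Matrix.diagonal_neg,
        Matrix.diagonal_neg]
      congr 1
      · congr 1
        funext i
        fin_cases i <;> simp
      · simp
      · simp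
      · congr 1
        funext i
        fin_cases i <;> simp
    · intro i j
      rfl
    · simp
    · simp
      ring⟩

/-- Off-diagonal elements of the Lie algebra. -/
def rElt (r : ℂ) : lieEx :=
  ⟨Matrix.fromBlocks !![0, r; -conj r, 0] 0 0 0, by
    refine ⟨?_, ?_, ?_, ?_⟩
    · rw [Matrix.fromBlocks_conjTranspose, Matrix.fromBlocks_neg]
      congr 1
      · ext i j
        fin_cases i <;> fin_cases j <;> simp
      · simp
      · simp
      · simp
    · intro i j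
      rfl
    · simp
    · simp⟩

lemma central_of_mul {α : exAction.lie →ₗ[ℝ] ℝ} (hα : exAction.IsCentral α) (g : GG)
    (ξ η : lieEx) (h : η.1 * (iotaRep g : Matrix KK KK ℂ) = (iotaRep g : Matrix KK KK ℂ) * ξ.1) :
    α η = α ξ := by
  refine hα g ξ η ?_
  show η.1 = (iotaRep g : Matrix KK KK ℂ) * ξ.1 * (iotaRep g⁻¹ : Matrix KK KK ℂ)
  rw [← h, mul_assoc, ← Matrix.UnitaryGroup.mul_val, ← map_mul, mul_inv_cancel, map_one,
    Matrix.UnitaryGroup.one_val, mul_one]

/-- The reflection. -/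
def g1 : GG := (⟨!![1, 0; 0, -1], by
  rw [Matrix.mem_unitaryGroup_iff]
  ext i j
  fin_cases i <;> fin_cases j <;> simp [Matrix.mul_apply, Fin.sum_univ_two]⟩, 1)

/-- The swap. -/
def g2 : GG := (⟨!![0, 1; 1, 0], by
  rw [Matrix.mem_unitaryGroup_iff]
  ext i j
  fin_cases i <;> fin_cases j <;> simp [Matrix.mul_apply, Fin.sum_univ_two]⟩, 1)

lemma iota_eq (g : GG) : (iotaRep g : Matrix KK KK ℂ) =
    Matrix.fromBlocks g.1.1 0 0 (Matrix.diagonal ![(g.2 : ℂ), g.1.1.det]) := rfl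

lemma central_rElt {α : exAction.lie →ₗ[ℝ] ℝ} (hα : exAction.IsCentral α) (r : ℂ) :
    α (rElt r) = 0 := by
  have h : α (rElt (-r)) = α (rElt r) := by
    refine central_of_mul hα g1 _ _ ?_
    rw [iota_eq]
    show Matrix.fromBlocks _ 0 0 0 * _ = _ * Matrix.fromBlocks _ 0 0 0
    rw [Matrix.fromBlocks_multiply, Matrix.fromBlocks_multiply]
    congr 1
    · ext i j
      fin_cases i <;> fin_cases j <;> simp [g1]
    · simp
    · simp
    · simp
  have h2 : rElt (-r) = -rElt r := by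
    apply Subtype.ext
    show Matrix.fromBlocks _ 0 0 0 = -(Matrix.fromBlocks _ 0 0 0)
    rw [Matrix.fromBlocks_neg]
    congr 1
    · ext i j
      fin_cases i <;> fin_cases j <;> simp
    · simp
    · simp
    · simp
  rw [h2] at h
  have h3 : α (-rElt r) = -α (rElt r) := map_neg α _
  linarith

lemma central_hElt {α : exAction.lie →ₗ[ℝ] ℝ} (hα : exAction.IsCentral α) (p q s : ℝ) :
    α (hElt q p s) = α (hElt p q s) := by
  refine central_of_mul hα g2 _ _ ?_
  rw [iota_eq]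
  show Matrix.fromBlocks _ 0 0 _ * _ = _ * Matrix.fromBlocks _ 0 0 _
  rw [Matrix.fromBlocks_multiply, Matrix.fromBlocks_multiply]
  congr 1
  · ext i j
    fin_cases i <;> fin_cases j <;> simp [g2, Matrix.vecMul_diagonal]
  · simp
  · simp
  · ext i j
    fin_cases i <;> fin_cases j <;> simp [g2]
    ring

/-- The vanishing of the off-diagonal components of the moment map. -/
lemma offdiag_eq {α : exAction.lie →ₗ[ℝ] ℝ} (hα : exAction.IsCentral α) (z : NN → ℂ)
    (hz : z ∈ exAction.level α) :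
    conj (z (Sum.inl (Sum.inl 0))) * z (Sum.inl (Sum.inl 1)) +
        conj (z (Sum.inl (Sum.inr 0))) * z (Sum.inl (Sum.inr 1)) -
        conj (z (Sum.inr (Sum.inl 1))) * z (Sum.inr (Sum.inl 0)) = 0 := by
  have h : ∀ r : ℂ, (r * (conj (z (Sum.inl (Sum.inl 0))) * z (Sum.inl (Sum.inl 1)) +
        conj (z (Sum.inl (Sum.inr 0))) * z (Sum.inl (Sum.inr 1)) -
        conj (z (Sum.inr (Sum.inl 1))) * z (Sum.inr (Sum.inl 0)))).im = 0 := by
    intro r
    have h1 : exAction.moment z (rElt r) = 0 := by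
      rw [show exAction.moment z = α from hz]
      exact central_rElt hα r
    rw [moment_formula] at h1
    simpa [rElt] using h1
  have h1 := h 1
  have h2 := h Complex.I
  rw [one_mul] at h1
  rw [Complex.I_mul_im] at h2
  exact Complex.ext h2 h1

/-- The equality of the diagonal components of the moment map. -/
lemma diag_eq {α : exAction.lie →ₗ[ℝ] ℝ} (hα : exAction.IsCentral α) (z : NN → ℂ)
    (hz : z ∈ exAction.level α) :
    Complex.normSq (z (Sum.inl (Sum.inl 0))) + Complex.normSq (z (Sum.inl (Sum.inr 0))) -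
          Complex.normSq (z (Sum.inr (Sum.inl 0))) =
    Complex.normSq (z (Sum.inl (Sum.inl 1))) + Complex.normSq (z (Sum.inl (Sum.inr 1))) -
          Complex.normSq (z (Sum.inr (Sum.inl 1))) := by
  have h1 : exAction.moment z (hElt 1 0 0) = exAction.moment z (hElt 0 1 0) := by
    rw [show exAction.moment z = α from hz]
    exact central_hElt hα 0 1 0
  rw [moment_formula, moment_formula] at h1
  simp [hElt] at h1
  linarith

lemma algebra_lemma (a0 a1 b0 b1 w0 w1 : ℂ)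
    (h1 : conj a0 * a1 + conj b0 * b1 - conj w1 * w0 = 0)
    (h2 : Complex.normSq a0 + Complex.normSq b0 - Complex.normSq w0 =
      Complex.normSq a1 + Complex.normSq b1 - Complex.normSq w1)
    (h3 : a0 * b1 - a1 * b0 = 0) :
    Complex.normSq a0 + Complex.normSq b0 = Complex.normSq w0 := by
  have e1 : Complex.normSq (conj a0 * a1 + conj b0 * b1) + Complex.normSq (a0 * b1 - a1 * b0) =
      (Complex.normSq a0 + Complex.normSq b0) * (Complex.normSq a1 + Complex.normSq b1) := by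
    simp only [Complex.normSq_apply, Complex.add_re, Complex.add_im, Complex.mul_re,
      Complex.mul_im, Complex.sub_re, Complex.sub_im, Complex.conj_re, Complex.conj_im]
    ring
  have e2 : conj a0 * a1 + conj b0 * b1 = conj w1 * w0 := by
    linear_combination h1
  rw [e2, h3, map_zero, add_zero, map_mul, Complex.normSq_conj] at e1
  have n1 := Complex.normSq_nonneg a0
  have n2 := Complex.normSq_nonneg a1
  have n3 := Complex.normSq_nonneg b0
  have n4 := Complex.normSq_nonneg b1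
  have n5 := Complex.normSq_nonneg w0
  have n6 := Complex.normSq_nonneg w1
  set N0 := Complex.normSq a0 + Complex.normSq b0 with hN0
  set N1 := Complex.normSq a1 + Complex.normSq b1 with hN1
  set W0 := Complex.normSq w0
  set W1 := Complex.normSq w1
  have h4 : (N0 - W0) * (N0 + W1) = 0 := by
    have : N1 = N0 - W0 + W1 := by linarith
    rw [this] at e1
    linear_combination -e1
  rcases mul_eq_zero.1 h4 with h5 | h5
  · linarith
  · have : N0 = 0 := by linarith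
    have h6 : W1 = 0 := by linarith
    have h7 : N1 = 0 - W0 := by linarith
    linarith

/-- Assemble a point of the representation space from its coordinates. -/
def pt (a b w y : Fin 2 → ℂ) : NN → ℂ := Sum.elim (Sum.elim a b) (Sum.elim w y)

/-- The semi-invariant has no zero on the level sets of central regular values. -/
theorem DD_ne_zero {α : exAction.lie →ₗ[ℝ] ℝ} (hα : exAction.IsCentral α)
    (hreg : exAction.IsRegularValue α) (z : NN → ℂ) (hz : z ∈ exAction.level α) : DD z ≠ 0 := by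
  intro hD
  have hoff := offdiag_eq hα z hz
  have hdiag := diag_eq hα z hz
  have hN0 := algebra_lemma _ _ _ _ _ _ hoff hdiag hD
  have hN1 : Complex.normSq (z (Sum.inl (Sum.inl 1))) + Complex.normSq (z (Sum.inl (Sum.inr 1))) =
      Complex.normSq (z (Sum.inr (Sum.inl 1))) := by linarith
  -- a point of the same level set with positive-dimensional stabiliser
  let Y : ℝ := Complex.normSq (z (Sum.inr (Sum.inl 0))) + Complex.normSq (z (Sum.inr (Sum.inl 1))) +
    Complex.normSq (z (Sum.inr (Sum.inr 0)))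
  have hY : 0 ≤ Y := by
    have h1 := Complex.normSq_nonneg (z (Sum.inr (Sum.inl 0)))
    have h2 := Complex.normSq_nonneg (z (Sum.inr (Sum.inl 1)))
    have h3 := Complex.normSq_nonneg (z (Sum.inr (Sum.inr 0)))
    positivity
  let z' : NN → ℂ := pt 0 0 0 ![((Real.sqrt Y : ℝ) : ℂ), z (Sum.inr (Sum.inr 1))]
  have hz' : z' ∈ exAction.level α := by
    show exAction.moment z' = α
    rw [← show exAction.moment z = α from hz]
    ext ξ
    rw [moment_formula z' ξ, moment_formula z ξ, hoff, hN0, hN1]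
    have hs : Complex.normSq ((Real.sqrt Y : ℝ) : ℂ) = Y := by
      rw [Complex.normSq_ofReal, Real.mul_self_sqrt hY]
    simp [z', pt, hs, Y]
  refine exAction.not_isRegularValue α z' hz' (hElt 1 (-1) 0) (dRho_skew _) ?_ ?_ hreg
  · intro h
    have := congrFun (congrFun (congrArg Subtype.val h) (Sum.inl 0)) (Sum.inl 0)
    simp [hElt] at this
  · funext i
    rcases i with (i | i) | (i | i)
    · rw [dact_a]
      simp [z', pt]
    · rw [dact_b]
      simp [z', pt]
    · rw [dact_w]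
      simp [z', pt]
    · fin_cases i
      · show (exAction.dρ (hElt 1 (-1) 0) *ᵥ z') (Sum.inr (Sum.inr 0)) = 0
        rw [dact_y0]
        simp [hElt]
      · show (exAction.dρ (hElt 1 (-1) 0) *ᵥ z') (Sum.inr (Sum.inr 1)) = 0
        rw [dact_y1]
        simp [hElt]

/-- A component of the moment map dominates the squared norm. -/
theorem moment_proper (z : NN → ℂ) :
    ∑ i, ‖z i‖ ^ 2 ≤ exAction.moment z (hElt 2 2 6) := by
  rw [moment_formula, Fintype.sum_sum_type, Fintype.sum_sum_type, Fintype.sum_sum_type]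
  simp only [Fin.sum_univ_two, ← Complex.normSq_eq_norm_sq]
  simp [hElt]
  have h1 := Complex.normSq_nonneg (z (Sum.inr (Sum.inl 0)))
  have h2 := Complex.normSq_nonneg (z (Sum.inr (Sum.inl 1)))
  have h3 := Complex.normSq_nonneg (z (Sum.inr (Sum.inr 0)))
  have h4 := Complex.normSq_nonneg (z (Sum.inr (Sum.inr 1)))
  nlinarith

/-! ### A central regular value -/

/-- The base point. -/
def zstar : NN → ℂ := pt ![1, 0] ![0, 1] 0 ![1, 0]

/-- Its moment. -/
def alphaStar : exAction.lie →ₗ[ℝ] ℝ := exAction.moment zstar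

lemma alphaStar_apply (ξ : lieEx) : alphaStar ξ = (1 / 2) * ((ξ.1 (Sum.inl 0) (Sum.inl 0)).im +
    (ξ.1 (Sum.inl 1) (Sum.inl 1)).im + (ξ.1 (Sum.inr 0) (Sum.inr 0)).im) := by
  show exAction.moment zstar ξ = _
  rw [moment_formula]
  simp [zstar, pt]

lemma lieEx_ext {ξ η : lieEx} (h : ∀ i j, ξ.1 (Sum.inl i) (Sum.inl j) = η.1 (Sum.inl i) (Sum.inl j))
    (h' : ξ.1 (Sum.inr 0) (Sum.inr 0) = η.1 (Sum.inr 0) (Sum.inr 0)) : ξ = η := by
  apply Subtype.ext
  ext a b
  rcases a with a | a <;> rcases b with b | b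
  · exact h a b
  · rw [ξ.2.2.1, η.2.2.1]
  · rw [star_lieEx' ξ, star_lieEx' η, ξ.2.2.1, η.2.2.1]
  · fin_cases a <;> fin_cases b
    · exact h'
    · show ξ.1 (Sum.inr 0) (Sum.inr 1) = η.1 (Sum.inr 0) (Sum.inr 1)
      rw [ξ.2.2.2.1, η.2.2.2.1]
    · show ξ.1 (Sum.inr 1) (Sum.inr 0) = η.1 (Sum.inr 1) (Sum.inr 0)
      rw [star_lieEx' ξ, star_lieEx' η, ξ.2.2.2.1, η.2.2.2.1]
    · show ξ.1 (Sum.inr 1) (Sum.inr 1) = η.1 (Sum.inr 1) (Sum.inr 1)
      rw [ξ.2.2.2.2, η.2.2.2.2, h, h]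

lemma alphaStar_central : exAction.IsCentral alphaStar := by
  intro g ξ η h
  have h' : η.1 = (iotaRep g : Matrix KK KK ℂ) * ξ.1 * (iotaRep g⁻¹ : Matrix KK KK ℂ) := h
  rw [alphaStar_apply ξ, alphaStar_apply η]
  have hξ4 := ξ.2.2.2.2
  have hη4 := η.2.2.2.2
  have htr : η.1.trace = ξ.1.trace := by
    rw [h', Matrix.trace_mul_comm, ← mul_assoc, ← Matrix.UnitaryGroup.mul_val, ← map_mul,
      inv_mul_cancel, map_one, Matrix.UnitaryGroup.one_val, one_mul]
  have hb : η.1 (Sum.inr 0) (Sum.inr 0) = ξ.1 (Sum.inr 0) (Sum.inr 0) := by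
    rw [h']
    simp only [Matrix.mul_apply, Fintype.sum_sum_type, Fin.sum_univ_two, iota_apply_inr_inl,
      iota_apply_inl_inr, iota_apply_inr_inr]
    have hc : (g.2 : ℂ) * ((g⁻¹).2 : ℂ) = 1 := by
      rw [Prod.snd_inv, ← Circle.coe_mul, mul_inv_cancel, Circle.coe_one]
    simp only [Matrix.diagonal_apply_eq, Matrix.cons_val_zero, mul_zero, zero_mul, zero_add,
      add_zero, ne_eq, Fin.isValue, one_ne_zero, zero_ne_one, not_false_eq_true,
      Matrix.diagonal_apply_ne]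
    linear_combination (ξ.1 (Sum.inr 0) (Sum.inr 0)) * hc
  have htr' := congrArg Complex.im htr
  have hb' := congrArg Complex.im hb
  have hξ4' := congrArg Complex.im hξ4
  have hη4' := congrArg Complex.im hη4
  simp only [Matrix.trace, Matrix.diag, Fintype.sum_sum_type, Fin.sum_univ_two,
    Complex.add_im] at htr' hξ4' hη4'
  linarith

lemma DD_normSq (a0 a1 b0 b1 w0 w1 : ℂ)
    (h1 : conj a0 * a1 + conj b0 * b1 - conj w1 * w0 = 0) :
    Complex.normSq (a0 * b1 - a1 * b0) =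
      (Complex.normSq a0 + Complex.normSq b0) * (Complex.normSq a1 + Complex.normSq b1) -
        Complex.normSq w1 * Complex.normSq w0 := by
  have e1 : Complex.normSq (conj a0 * a1 + conj b0 * b1) + Complex.normSq (a0 * b1 - a1 * b0) =
      (Complex.normSq a0 + Complex.normSq b0) * (Complex.normSq a1 + Complex.normSq b1) := by
    simp only [Complex.normSq_apply, Complex.add_re, Complex.add_im, Complex.mul_re,
      Complex.mul_im, Complex.sub_re, Complex.sub_im, Complex.conj_re, Complex.conj_im]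
    ring
  have e2 : conj a0 * a1 + conj b0 * b1 = conj w1 * w0 := by
    linear_combination h1
  rw [e2, map_mul, Complex.normSq_conj] at e1
  linarith

lemma solve_two (x y a0 a1 b0 b1 : ℂ) (h : a0 * b1 - a1 * b0 ≠ 0) (h1 : x * a0 + y * a1 = 0)
    (h2 : x * b0 + y * b1 = 0) : x = 0 ∧ y = 0 := by
  have hx : x * (a0 * b1 - a1 * b0) = 0 := by linear_combination b1 * h1 - a1 * h2
  have hy : y * (a0 * b1 - a1 * b0) = 0 := by linear_combination a0 * h2 - b0 * h1
  exact ⟨(mul_eq_zero.1 hx).resolve_right h, (mul_eq_zero.1 hy).resolve_right h⟩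

lemma alphaStar_regular : exAction.IsRegularValue alphaStar := by
  refine exAction.isRegularValue_of_injective dRho_skew alphaStar ?_
  intro z hz ξ hξ
  have hm : ∀ η : lieEx, exAction.moment z η = alphaStar η := by
    intro η
    rw [show exAction.moment z = alphaStar from hz]
  have hoff := offdiag_eq alphaStar_central z hz
  have m1 := hm (hElt 1 0 0)
  have m2 := hm (hElt 0 1 0)
  have m3 := hm (hElt 0 0 1)
  rw [moment_formula, alphaStar_apply] at m1 m2 m3
  simp [hElt] at m1 m2 m3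
  have hD := DD_normSq _ _ _ _ _ _ hoff
  have n1 := Complex.normSq_nonneg (z (Sum.inr (Sum.inl 0)))
  have n2 := Complex.normSq_nonneg (z (Sum.inr (Sum.inl 1)))
  have n3 := Complex.normSq_nonneg (z (Sum.inr (Sum.inr 0)))
  have n4 := Complex.normSq_nonneg (z (Sum.inr (Sum.inr 1)))
  have hDne : z (Sum.inl (Sum.inl 0)) * z (Sum.inl (Sum.inr 1)) -
      z (Sum.inl (Sum.inl 1)) * z (Sum.inl (Sum.inr 0)) ≠ 0 := by
    intro h0
    rw [h0, map_zero] at hD
    nlinarith
  have da : ∀ i, (exAction.dρ ξ *ᵥ z) (Sum.inl (Sum.inl i)) = 0 := fun i => by rw [hξ]; rfl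
  have db : ∀ i, (exAction.dρ ξ *ᵥ z) (Sum.inl (Sum.inr i)) = 0 := fun i => by rw [hξ]; rfl
  have dw : ∀ i, (exAction.dρ ξ *ᵥ z) (Sum.inr (Sum.inl i)) = 0 := fun i => by rw [hξ]; rfl
  have dy : ∀ i, (exAction.dρ ξ *ᵥ z) (Sum.inr (Sum.inr i)) = 0 := fun i => by rw [hξ]; rfl
  have hX : ∀ i j, ξ.1 (Sum.inl i) (Sum.inl j) = 0 := by
    intro i j
    have e1 := (dact_a ξ z i).symm.trans (da i)
    have e2 := (dact_b ξ z i).symm.trans (db i)
    have := solve_two _ _ _ _ _ _ hDne e1 e2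
    fin_cases j
    · exact this.1
    · exact this.2
  have hη : ξ.1 (Sum.inr 0) (Sum.inr 0) = 0 := by
    by_contra hne
    have e1 := (dact_w ξ z 0).symm.trans (dw 0)
    have e2 := (dact_w ξ z 1).symm.trans (dw 1)
    have e3 := (dact_y0 ξ z).symm.trans (dy 0)
    have e4 := (dact_y1 ξ z).symm.trans (dy 1)
    simp only [hX, map_zero, zero_mul, add_zero, mul_eq_zero, hne, false_or] at e1 e2 e3 e4
    rw [e1, e2, e3, e4] at m3
    simp at m3
  exact lieEx_ext (fun i j => by rw [hX]; rfl) (by rw [hη]; rfl)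

end Pool.Agent.Lib.Pc41d74
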