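import Pool.Agent.Lib.Pc41d74.Level

/-!
# The explicit disc in the locally free locus
-/

open Set Topology Filter
open scoped ComplexConjugate Matrix InnerProductSpace

noncomputable section

namespace Pool.Agent.Lib.Pc41d74

/-- The disc of points in the representation space. -/
def xf (t : Simplex 2) : NN → ℂ :=
  pt ![((1 - ‖zf t‖ : ℝ) : ℂ), 0] ![0, 1] ![0, 1] ![1, conj (zf t)]

/-- The base point on its boundary. -/
def x0 : NN → ℂ := pt ![0, 0] ![0, 1] ![0, 1] ![1, 1]

lemma continuous_xf : Continuous xf := by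
  refine continuous_pi fun i => ?_
  have h := continuous_zf
  rcases i with (i | i) | (i | i)
  · fin_cases i
    · exact Complex.continuous_ofReal.comp (continuous_const.sub h.norm)
    · exact continuous_const
  · exact continuous_const
  · exact continuous_const
  · fin_cases i
    · exact continuous_const
    · exact Complex.continuous_conj.comp h

/-- The element `(diag (z, 1), 1)` of the group. -/
def kElt (z : Circle) : GG := (⟨Matrix.diagonal ![(z : ℂ), 1], by
  rw [Matrix.mem_unitaryGroup_iff, Matrix.star_eq_conjTranspose, Matrix.diagonal_conjTranspose,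
    Matrix.diagonal_mul_diagonal, ← Matrix.diagonal_one]
  congr 1
  funext i
  fin_cases i
  · simp [Complex.mul_conj, Complex.normSq_eq_norm_sq, Circle.norm_coe z]
  · simp⟩, 1)

lemma xf_face (i : Fin 3) (s : Simplex 1) :
    xf (face i s) = exAction.act (kElt (zc i s)) x0 := by
  funext j
  rcases j with (j | j) | (j | j)
  · rw [act_a]
    fin_cases j <;> simp [xf, x0, pt, norm_zf_face]
  · rw [act_b]
    fin_cases j <;> simp [xf, x0, pt, kElt]
  · rw [act_w]
    fin_cases j <;> simp [xf, x0, pt, kElt]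
  · fin_cases j
    · show _ = exAction.act (kElt (zc i s)) x0 (Sum.inr (Sum.inr 0))
      rw [act_y0]
      simp [xf, x0, pt, kElt]
    · show _ = exAction.act (kElt (zc i s)) x0 (Sum.inr (Sum.inr 1))
      rw [act_y1]
      simp [xf, x0, pt, kElt, zc_coe]

lemma im_lemma {ξ η : ℂ} (hξ : ξ.re = 0) (hη : η.re = 0) (h : ξ + Complex.I * η = 0) :
    ξ = 0 ∧ η = 0 := by
  have h1 := congrArg Complex.re h
  have h2 := congrArg Complex.im h
  simp [hξ, hη] at h1 h2
  exact ⟨Complex.ext hξ h2, Complex.ext hη h1⟩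

lemma conj_lemma {ξ η : ℂ} (h : ξ + Complex.I * η = 0) (h' : conj ξ + Complex.I * conj η = 0) :
    ξ = 0 ∧ η = 0 := by
  have h2 := congrArg conj h'
  simp at h2
  have h3 : (2 : ℂ) * ξ = 0 := by linear_combination h + h2
  have h4 : ξ = 0 := by simpa using h3
  refine ⟨h4, ?_⟩
  rw [h4] at h
  simpa using h

lemma xf_mem_locallyFreeC (t : Simplex 2) : xf t ∈ exAction.locallyFreeC := by
  intro ξ η h
  have da : ∀ i, (exAction.dρ ξ *ᵥ xf t) (Sum.inl (Sum.inl i)) +
    Complex.I * (exAction.dρ η *ᵥ xf t) (Sum.inl (Sum.inl i)) = 0 := fun i => congrFun h _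
  have db : ∀ i, (exAction.dρ ξ *ᵥ xf t) (Sum.inl (Sum.inr i)) +
    Complex.I * (exAction.dρ η *ᵥ xf t) (Sum.inl (Sum.inr i)) = 0 := fun i => congrFun h _
  have dw : ∀ i, (exAction.dρ ξ *ᵥ xf t) (Sum.inr (Sum.inl i)) +
    Complex.I * (exAction.dρ η *ᵥ xf t) (Sum.inr (Sum.inl i)) = 0 := fun i => congrFun h _
  have dy : ∀ i, (exAction.dρ ξ *ᵥ xf t) (Sum.inr (Sum.inr i)) +
    Complex.I * (exAction.dρ η *ᵥ xf t) (Sum.inr (Sum.inr i)) = 0 := fun i => congrFun h _
  have a0 := da 0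
  have b0 := db 0
  have b1 := db 1
  have w0 := dw 0
  have y0 := dy 0
  have y1 := dy 1
  rw [dact_a ξ (xf t) 0, dact_a η (xf t) 0] at a0
  rw [dact_b ξ (xf t) 0, dact_b η (xf t) 0] at b0
  rw [dact_b ξ (xf t) 1, dact_b η (xf t) 1] at b1
  rw [dact_w ξ (xf t) 0, dact_w η (xf t) 0] at w0
  rw [dact_y0 ξ (xf t), dact_y0 η (xf t)] at y0
  rw [dact_y1 ξ (xf t), dact_y1 η (xf t)] at y1
  simp [xf, pt] at a0 b0 b1 w0 y0 y1
  obtain ⟨hξ01, hη01⟩ := conj_lemma b0 w0
  obtain ⟨hξ11, hη11⟩ := im_lemma (re_diag ξ (Sum.inl 1)) (re_diag η (Sum.inl 1)) b1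
  obtain ⟨hξ22, hη22⟩ := im_lemma (re_diag ξ (Sum.inr 0)) (re_diag η (Sum.inr 0)) y0
  rw [hξ22, hη22, hξ11, hη11, star_lieEx ξ, star_lieEx η] at y1
  have h00 : ξ.1 (Sum.inl 0) (Sum.inl 0) + Complex.I * η.1 (Sum.inl 0) (Sum.inl 0) = 0 := by
    by_contra hne
    have e1 : (ξ.1 (Sum.inl 0) (Sum.inl 0) + Complex.I * η.1 (Sum.inl 0) (Sum.inl 0)) *
        (1 - (‖zf t‖ : ℂ)) = 0 := by linear_combination a0
    have e2 : (ξ.1 (Sum.inl 0) (Sum.inl 0) + Complex.I * η.1 (Sum.inl 0) (Sum.inl 0)) *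
        conj (zf t) = 0 := by
      simp only [map_zero] at y1
      linear_combination -y1
    have e3 := (mul_eq_zero.1 e1).resolve_left hne
    have e4 := (mul_eq_zero.1 e2).resolve_left hne
    have e5 : zf t = 0 := by simpa using e4
    rw [e5] at e3
    simp at e3
  obtain ⟨hξ00, hη00⟩ := im_lemma (re_diag ξ (Sum.inl 0)) (re_diag η (Sum.inl 0)) h00
  constructor
  · refine lieEx_ext (fun i j => ?_) hξ22
    fin_cases i <;> fin_cases j
    · exact hξ00
    · exact hξ01
    · show ξ.1 (Sum.inl 1) (Sum.inl 0) = 0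
      rw [star_lieEx' ξ, hξ01]
      simp
    · exact hξ11
  · refine lieEx_ext (fun i j => ?_) hη22
    fin_cases i <;> fin_cases j
    · exact hη00
    · exact hη01
    · show η.1 (Sum.inl 1) (Sum.inl 0) = 0
      rw [star_lieEx' η, hη01]
      simp
    · exact hη11

lemma xf_mem_locallyFree (t : Simplex 2) : xf t ∈ exAction.locallyFree := by
  refine (Set.finite_singleton (1 : GG)).subset ?_
  intro g hg
  have hg' : exAction.act g (xf t) = xf t := hg
  rw [Set.mem_singleton_iff]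
  have a0 := congrFun hg' (Sum.inl (Sum.inl 0))
  have b0 := congrFun hg' (Sum.inl (Sum.inr 0))
  have b1 := congrFun hg' (Sum.inl (Sum.inr 1))
  have y0 := congrFun hg' (Sum.inr (Sum.inr 0))
  have y1 := congrFun hg' (Sum.inr (Sum.inr 1))
  rw [act_a] at a0
  rw [act_b] at b0 b1
  rw [act_y0] at y0
  rw [act_y1] at y1
  have a0' : g.1.1 0 0 * (1 - (‖zf t‖ : ℂ)) = 1 - (‖zf t‖ : ℂ) := by
    have : g.1.1 0 0 * ((1 - ‖zf t‖ : ℝ) : ℂ) + g.1.1 0 1 * 0 = ((1 - ‖zf t‖ : ℝ) : ℂ) := a0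
    push_cast at this
    linear_combination this
  have y1' : (g.2 : ℂ) * conj (g.1.1.det) * conj (zf t) = conj (zf t) := y1
  simp [xf, pt] at b0 b1 y0
  have hu := Matrix.mem_unitaryGroup_iff.1 g.1.2
  have h11 := congrFun (congrFun hu 1) 1
  simp only [Matrix.mul_apply, Fin.sum_univ_two, Matrix.star_apply, Complex.star_def,
    Matrix.one_apply_eq, b1, map_one, mul_one] at h11
  have h10 : g.1.1 1 0 = 0 := by
    have : g.1.1 1 0 * conj (g.1.1 1 0) = 0 := by linear_combination h11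
    rw [Complex.mul_conj] at this
    exact_mod_cast Complex.normSq_eq_zero.1 (by exact_mod_cast this)
  have h00 : g.1.1 0 0 = 1 := by
    by_contra hne
    have hne' : g.1.1 0 0 - 1 ≠ 0 := sub_ne_zero.2 hne
    have e1 : (g.1.1 0 0 - 1) * (1 - (‖zf t‖ : ℂ)) = 0 := by linear_combination a0'
    have y0' : (g.2 : ℂ) = 1 := by rw [y0]; rfl
    rw [Matrix.det_fin_two, b0, b1, h10, y0'] at y1'
    have y2 := congrArg conj y1'
    simp only [map_mul, map_one, Complex.conj_conj] at y2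
    have e2 : (g.1.1 0 0 - 1) * zf t = 0 := by linear_combination y2
    have e3 := (mul_eq_zero.1 e1).resolve_left hne'
    have e4 := (mul_eq_zero.1 e2).resolve_left hne'
    rw [e4] at e3
    simp at e3
  refine Prod.ext ?_ ?_
  · apply Subtype.ext
    ext i j
    fin_cases i <;> fin_cases j <;> simp [h00, h10, b0, b1]
  · apply Circle.ext
    simpa using y0

/-! ### The disc of frames -/

/-- The standard basis of `ℓ²`. -/
def dl (n : ℕ) : Ell2 := (default : HilbertBasis ℕ ℂ Ell2) n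

lemma inner_dl (m n : ℕ) : ⟪dl m, dl n⟫_ℂ = if m = n then 1 else 0 :=
  (orthonormal_iff_ite.1 (default : HilbertBasis ℕ ℂ Ell2).orthonormal) m n

lemma norm_dl (n : ℕ) : ‖dl n‖ = 1 := (default : HilbertBasis ℕ ℂ Ell2).orthonormal.1 n

/-- The disc of frames. -/
def ef (t : Simplex 2) : KK → Ell2 :=
  Sum.elim ![rot (dl 0) (dl 4) t, dl 1] ![dl 2, rot (dl 3) (dl 5) t]

/-- The base frame. -/
def e0 : KK → Ell2 := Sum.elim ![dl 0, dl 1] ![dl 2, dl 3]

lemma norm_eq_one_of_inner {E : Type} [NormedAddCommGroup E] [InnerProductSpace ℂ E] {v : E}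
    (h : ‖v‖ = 1) : ⟪v, v⟫_ℂ = 1 := by
  rw [inner_self_eq_norm_sq_to_K, h]
  simp

lemma inner_rot_left (a b c : ℕ) (t : Simplex 2) : ⟪rot (dl a) (dl b) t, dl c⟫_ℂ =
    conj (zf t) * (if a = c then 1 else 0) +
      ((Real.sqrt (1 - ‖zf t‖ ^ 2) : ℝ) : ℂ) * (if b = c then 1 else 0) := by
  rw [rot, inner_add_left, inner_smul_left, inner_smul_left, inner_dl, inner_dl,
    Complex.conj_ofReal]

lemma inner_rot_right (a b c : ℕ) (t : Simplex 2) : ⟪dl c, rot (dl a) (dl b) t⟫_ℂ =
    zf t * (if c = a then 1 else 0) +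
      ((Real.sqrt (1 - ‖zf t‖ ^ 2) : ℝ) : ℂ) * (if c = b then 1 else 0) := by
  rw [rot, inner_add_right, inner_smul_right, inner_smul_right, inner_dl, inner_dl]

lemma inner_rot_rot (a b c d : ℕ) (t : Simplex 2) (h1 : a ≠ c) (h2 : a ≠ d) (h3 : b ≠ c)
    (h4 : b ≠ d) : ⟪rot (dl a) (dl b) t, rot (dl c) (dl d) t⟫_ℂ = 0 := by
  conv_lhs => rw [rot, inner_add_left, inner_smul_left, inner_smul_left, inner_rot_right,
    inner_rot_right]
  simp [h1, h2, h3, h4]

lemma orthonormal_ef (t : Simplex 2) : Orthonormal ℂ (ef t) := by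
  have n1 := norm_eq_one_of_inner (norm_rot (dl 0) (dl 4) (norm_dl 0) (norm_dl 4)
    (by rw [inner_dl]; simp) t)
  have n2 := norm_eq_one_of_inner (norm_rot (dl 3) (dl 5) (norm_dl 3) (norm_dl 5)
    (by rw [inner_dl]; simp) t)
  rw [orthonormal_iff_ite]
  intro i j
  rcases i with i | i <;> rcases j with j | j <;> fin_cases i <;> fin_cases j
  · simpa [ef] using n1
  · simp [ef, inner_rot_left]
  · simp [ef, inner_rot_right]
  · simp [ef, norm_dl]
  · simp [ef, inner_rot_left]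
  · simp [ef, inner_rot_rot]
  · simp [ef, inner_dl]
  · simp [ef, inner_rot_right]
  · simp [ef, inner_rot_right]
  · simp [ef, inner_dl]
  · simp [ef, inner_rot_rot]
  · simp [ef, inner_rot_left]
  · simp [ef, norm_dl]
  · simp [ef, inner_rot_right]
  · simp [ef, inner_rot_left]
  · simpa [ef] using n2

lemma orthonormal_e0 : Orthonormal ℂ e0 := by
  rw [orthonormal_iff_ite]
  intro i j
  rcases i with i | i <;> rcases j with j | j <;> fin_cases i <;> fin_cases j <;>
    simp [e0, inner_dl, norm_dl]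

lemma continuous_ef : Continuous ef := by
  refine continuous_pi fun i => ?_
  rcases i with i | i <;> fin_cases i
  · exact continuous_rot _ _
  · exact continuous_const
  · exact continuous_const
  · exact continuous_rot _ _

lemma ef_face (i : Fin 3) (s : Simplex 1) :
    ef (face i s) = exAction.frameAct (kElt (zc i s)) e0 := by
  funext j
  show _ = ∑ l, (iotaRep (kElt (zc i s)) : Matrix KK KK ℂ) j l • e0 l
  rw [Fintype.sum_sum_type, Fin.sum_univ_two, Fin.sum_univ_two, iota_eq]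
  rcases j with j | j <;> fin_cases j <;>
    simp [ef, e0, kElt, rot_face, zc_coe]

/-- The disc of frames as a singular simplex. -/
def efC : C(Simplex 2, Frame KK) :=
  ⟨fun t => ⟨ef t, orthonormal_ef t⟩, continuous_ef.subtype_mk _⟩

theorem restrict_ne_zero (S : Set (NN → ℂ)) (hS : ∀ t, xf t ∈ S) (h0 : x0 ∈ S) :
    exAction.restrict 2 S (UnitaryAction.charClass hasChar) ≠ 0 := by
  refine UnitaryAction.restrict_charClass_ne_zero hasChar S
    ⟨fun t => ⟨xf t, hS t⟩, continuous_xf.subtype_mk _⟩ ⟨x0, h0⟩ efC ⟨e0, orthonormal_e0⟩ ?_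
    (dl 5) ?_
  · intro i s
    exact ⟨kElt (zc i s), ef_face i s, xf_face i s⟩
  · intro t
    rfl

end Pool.Agent.Lib.Pc41d74
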