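import Pool.Agent.Lib.Pc41d74.Defs

/-!
# The universal degree-two class on a projective space

For a complex inner product space `E` let `Sph E` be its unit sphere and `Proj E` the
quotient of the sphere by the circle.  We construct a singular `2`-cocycle on `Proj E`
that becomes a coboundary on `Sph E`, and evaluate it on an explicit pair of simplices.
-/

open Set Topology Filter
open scoped ComplexConjugate InnerProductSpace

noncomputable section

namespace Pool.Agent.Lib.Pc41d74

/-! ### Simplices and faces -/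

/-- A vertex of the standard simplex. -/
def vtx (k : ℕ) (i : Fin (k + 1)) : Simplex k := stdSimplex.vertex i

lemma face_vtx {k : ℕ} (i : Fin (k + 2)) (j : Fin (k + 1)) :
    face i (vtx k j) = vtx (k + 1) (i.succAbove j) := by
  simp [face, vtx, stdSimplex.map_vertex]

lemma face_comp_face_apply {k : ℕ} (j : Fin (k + 3)) (i : Fin (k + 2)) (x : Simplex k) :
    face j (face i x) = stdSimplex.map (fun a => j.succAbove (i.succAbove a)) x := by
  simp only [face, ContinuousMap.coe_mk, stdSimplex.map_comp_apply]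
  rfl

lemma face_comp_face_eq {k : ℕ} {j j' : Fin (k + 3)} {i i' : Fin (k + 2)}
    (h : ∀ a, j.succAbove (i.succAbove a) = j'.succAbove (i'.succAbove a)) :
    (face j).comp (face i) = (face j').comp (face i') := by
  ext1 x
  simp only [ContinuousMap.comp_apply, face_comp_face_apply]
  congr 1
  funext a
  exact h a

instance (k : ℕ) : ContractibleSpace (Simplex k) :=
  (convex_stdSimplex ℝ (Fin (k + 1))).contractibleSpace
    ⟨_, (vtx k 0).2⟩

instance (k : ℕ) : LocallyPathConnectedSpace (Simplex k) :=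
  Convex.locallyPathConnectedSpace _ (convex_stdSimplex ℝ (Fin (k + 1)))

/-! ### Circle-valued functions on simplices and change of argument -/

lemma exists_log {k : ℕ} (f : C(Simplex k, Circle)) :
    ∃ θ : C(Simplex k, ℝ), ∀ t, Circle.exp (θ t) = f t := by
  obtain ⟨e₀, he₀⟩ := Circle.exp_surjective (f (vtx k 0))
  obtain ⟨F, ⟨-, hF⟩, -⟩ :=
    Circle.isCoveringMap_exp.existsUnique_continuousMap_lifts f (vtx k 0) e₀ he₀
  exact ⟨F, fun t => congrFun hF t⟩

lemma log_diff {k : ℕ} (θ θ' : C(Simplex k, ℝ)) (h : ∀ t, Circle.exp (θ t) = Circle.exp (θ' t))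
    (a b : Simplex k) : θ a - θ b = θ' a - θ' b := by
  have key : (fun t => θ t) = fun t => θ' t + (θ b - θ' b) := by
    refine Circle.isCoveringMap_exp.eq_of_comp_eq (A := Simplex k) θ.continuous
      (by fun_prop) ?_ b (by ring)
    funext t
    simp only [Function.comp_apply, Circle.exp_add]
    rw [h t, Circle.exp_sub, h b]
    simp
  have := congrFun key a
  linarith

/-- The total change of argument along a path in the circle. -/
def dArg (r : C(Simplex 1, Circle)) : ℝ :=
  (exists_log r).choose (vtx 1 1) - (exists_log r).choose (vtx 1 0)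

lemma dArg_eq (r : C(Simplex 1, Circle)) (θ : C(Simplex 1, ℝ)) (h : ∀ t, Circle.exp (θ t) = r t) :
    dArg r = θ (vtx 1 1) - θ (vtx 1 0) := by
  unfold dArg
  refine log_diff _ _ (fun t => ?_) _ _
  rw [(exists_log r).choose_spec t, h t]

lemma dArg_mul (r s : C(Simplex 1, Circle)) : dArg (r * s) = dArg r + dArg s := by
  obtain ⟨θ, hθ⟩ := exists_log r
  obtain ⟨φ, hφ⟩ := exists_log s
  rw [dArg_eq r θ hθ, dArg_eq s φ hφ, dArg_eq (r * s) (θ + φ)]
  · simp; ring
  · intro t
    simp [Circle.exp_add, hθ, hφ]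

lemma dArg_face_sum (R : C(Simplex 2, Circle)) :
    ∑ i : Fin 3, (-1 : ℝ) ^ (i : ℕ) * dArg (R.comp (face i)) = 0 := by
  obtain ⟨θ, hθ⟩ := exists_log R
  have h : ∀ i : Fin 3, dArg (R.comp (face i)) =
      θ (vtx 2 (i.succAbove 1)) - θ (vtx 2 (i.succAbove 0)) := by
    intro i
    rw [dArg_eq (R.comp (face i)) (θ.comp (face i)) (fun t => hθ _)]
    simp only [ContinuousMap.comp_apply, face_vtx]
  simp only [h, Fin.sum_univ_three]
  have e1 : (0 : Fin 3).succAbove (1 : Fin 2) = 2 := by decide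
  have e2 : (0 : Fin 3).succAbove (0 : Fin 2) = 1 := by decide
  have e3 : (1 : Fin 3).succAbove (1 : Fin 2) = 2 := by decide
  have e4 : (1 : Fin 3).succAbove (0 : Fin 2) = 0 := by decide
  have e5 : (2 : Fin 3).succAbove (1 : Fin 2) = 1 := by decide
  have e6 : (2 : Fin 3).succAbove (0 : Fin 2) = 0 := by decide
  rw [e1, e2, e3, e4, e5, e6]
  norm_num


/-! ### The unit sphere and the projective space -/

section Sphere

variable (E : Type) [NormedAddCommGroup E] [InnerProductSpace ℂ E]

/-- The unit sphere of `E`. -/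
abbrev Sph : Type := Metric.sphere (0 : E) 1

/-- Two unit vectors are equivalent if they differ by a phase. -/
def phaseSetoid : Setoid (Sph E) where
  r u v := ∃ z : Circle, (z : ℂ) • (u : E) = v
  iseqv :=
    { refl := fun u => ⟨1, by simp⟩
      symm := by
        rintro u v ⟨z, hz⟩
        refine ⟨z⁻¹, ?_⟩
        rw [← hz, smul_smul]
        simp
      trans := by
        rintro u v w ⟨z, hz⟩ ⟨z', hz'⟩
        refine ⟨z' * z, ?_⟩
        rw [← hz', ← hz, smul_smul]
        simp }

/-- The projective space of `E`: unit vectors up to phase. -/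
def Proj : Type := Quotient (phaseSetoid E)

instance : TopologicalSpace (Proj E) := inferInstanceAs (TopologicalSpace (Quotient _))

variable {E}

/-- The projection from the sphere to the projective space. -/
def pr : C(Sph E, Proj E) := ⟨Quotient.mk (phaseSetoid E), continuous_quotient_mk'⟩

lemma pr_eq_iff {u v : Sph E} : pr u = pr v ↔ ∃ z : Circle, (z : ℂ) • (u : E) = v :=
  Quotient.eq (r := phaseSetoid E)

lemma pr_surjective : Function.Surjective (pr : Sph E → Proj E) := Quotient.mk_surjective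

omit [InnerProductSpace ℂ E] in
lemma norm_coe (u : Sph E) : ‖(u : E)‖ = 1 := mem_sphere_zero_iff_norm.1 u.2

/-- Multiplication of a unit vector by a phase. -/
def phaseMul (z : Circle) (u : Sph E) : Sph E :=
  ⟨(z : ℂ) • (u : E), by
    rw [mem_sphere_zero_iff_norm, norm_smul, Circle.norm_coe, one_mul, norm_coe]⟩

lemma continuous_phaseMul (z : Circle) : Continuous (phaseMul z : Sph E → Sph E) := by
  unfold phaseMul
  fun_prop

lemma isOpenQuotientMap_pr : IsOpenQuotientMap (pr : Sph E → Proj E) := by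
  refine ⟨pr_surjective, pr.continuous, ?_⟩
  intro U hU
  have : (pr : Sph E → Proj E) ⁻¹' (pr '' U) = ⋃ z : Circle, phaseMul z ⁻¹' U := by
    ext v
    simp only [mem_preimage, mem_image, mem_iUnion]
    constructor
    · rintro ⟨u, hu, huv⟩
      obtain ⟨z, hz⟩ := pr_eq_iff.1 huv.symm
      refine ⟨z, ?_⟩
      have : phaseMul z v = u := Subtype.ext hz
      rwa [this]
    · rintro ⟨z, hz⟩
      exact ⟨phaseMul z v, hz, (pr_eq_iff.2 ⟨z, rfl⟩).symm⟩
  have hq : IsQuotientMap (pr : Sph E → Proj E) := isQuotientMap_quot_mk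
  rw [← hq.isOpen_preimage, this]
  exact isOpen_iUnion fun z => hU.preimage (continuous_phaseMul z)

/-- The orthogonal projection of the unit vector `u` to the line `x`. -/
def lineProj (u : Sph E) (x : Proj E) : E :=
  Quotient.lift (fun v : Sph E => ⟪(v : E), (u : E)⟫_ℂ • (v : E)) (by
    rintro v w ⟨z, hz⟩
    show ⟪(v : E), (u : E)⟫_ℂ • (v : E) = ⟪(w : E), (u : E)⟫_ℂ • (w : E)
    rw [← hz, inner_smul_left, smul_smul, mul_comm (conj (z : ℂ)), mul_assoc,
      ← Complex.normSq_eq_conj_mul_self, Complex.normSq_eq_norm_sq, Circle.norm_coe]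
    simp) x

lemma lineProj_pr (u v : Sph E) : lineProj u (pr v) = ⟪(v : E), (u : E)⟫_ℂ • (v : E) := rfl

lemma continuous_lineProj : Continuous (fun p : Sph E × Proj E => lineProj p.1 p.2) := by
  have hq : IsQuotientMap (Prod.map (id : Sph E → Sph E) (pr : Sph E → Proj E)) :=
    (IsOpenQuotientMap.prodMap IsOpenQuotientMap.id isOpenQuotientMap_pr).isQuotientMap
  rw [hq.continuous_iff]
  show Continuous (fun p : Sph E × Sph E => ⟪(p.2 : E), (p.1 : E)⟫_ℂ • (p.2 : E))
  fun_prop


lemma norm_lineProj_pr (u v : Sph E) : ‖lineProj u (pr v)‖ = ‖⟪(v : E), (u : E)⟫_ℂ‖ := by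
  rw [lineProj_pr, norm_smul, norm_coe, mul_one]

/-- The normalised projection, when nonzero, lies over the given point. -/
lemma pr_normalize (u : Sph E) (x : Proj E) (h : lineProj u x ≠ 0)
    (h1 : ((‖lineProj u x‖ : ℂ)⁻¹ • lineProj u x) ∈ Metric.sphere (0 : E) 1) :
    pr (⟨_, h1⟩ : Sph E) = x := by
  obtain ⟨v, rfl⟩ := pr_surjective x
  symm
  rw [pr_eq_iff]
  have hne : ⟪(v : E), (u : E)⟫_ℂ ≠ 0 := by
    intro h0
    apply h
    rw [lineProj_pr, h0, zero_smul]
  refine ⟨⟨(‖⟪(v : E), (u : E)⟫_ℂ‖ : ℂ)⁻¹ * ⟪(v : E), (u : E)⟫_ℂ, ?_⟩, ?_⟩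
  · refine mem_sphere_zero_iff_norm.2 ?_
    rw [norm_mul, norm_inv, Complex.norm_real, norm_norm]
    exact inv_mul_cancel₀ (norm_ne_zero_iff.2 hne)
  · show ((‖⟪(v : E), (u : E)⟫_ℂ‖ : ℂ)⁻¹ * ⟪(v : E), (u : E)⟫_ℂ) • (v : E) =
      (‖lineProj u (pr v)‖ : ℂ)⁻¹ • lineProj u (pr v)
    rw [norm_lineProj_pr, lineProj_pr, smul_smul]

lemma exists_step {k : ℕ} (f : C(Simplex k, Sph E)) (h : C(Simplex k, Proj E))
    (hne : ∀ t, lineProj (f t) (h t) ≠ 0) :
    ∃ g : C(Simplex k, Sph E), ∀ t, pr (g t) = h t := by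
  have hc : Continuous (fun t => lineProj (f t) (h t)) :=
    continuous_lineProj.comp (f.continuous.prodMk h.continuous)
  have hs : ∀ t, ((‖lineProj (f t) (h t)‖ : ℂ)⁻¹ • lineProj (f t) (h t)) ∈
      Metric.sphere (0 : E) 1 := by
    intro t
    rw [mem_sphere_zero_iff_norm, norm_smul, norm_inv, Complex.norm_real, norm_norm]
    exact inv_mul_cancel₀ (norm_ne_zero_iff.2 (hne t))
  refine ⟨⟨fun t => ⟨_, hs t⟩, ?_⟩, fun t => pr_normalize _ _ (hne t) (hs t)⟩
  refine Continuous.subtype_mk ?_ _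
  refine Continuous.smul ?_ hc
  refine Continuous.inv₀ (by fun_prop) ?_
  intro t
  simpa using hne t


/-- The point at parameter `s` on the segment from the vertex `0` to `t`. -/
def ray {k : ℕ} (s : unitInterval) : C(Simplex k, Simplex k) :=
  ⟨fun t => ⟨(1 - (s : ℝ)) • (vtx k 0).1 + (s : ℝ) • t.1,
      (convex_stdSimplex ℝ (Fin (k + 1))) (vtx k 0).2 t.2 (by linarith [s.2.2]) s.2.1 (by ring)⟩,
    by
      refine Continuous.subtype_mk ?_ _
      fun_prop⟩

lemma ray_val {k : ℕ} (s : unitInterval) (t : Simplex k) (i : Fin (k + 1)) :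
    (ray s t).1 i = (1 - (s : ℝ)) * (vtx k 0).1 i + (s : ℝ) * t.1 i := rfl

lemma ray_zero {k : ℕ} (t : Simplex k) : ray 0 t = vtx k 0 := by
  apply Subtype.ext
  funext i
  rw [ray_val]
  simp

lemma ray_one {k : ℕ} (t : Simplex k) : ray 1 t = t := by
  apply Subtype.ext
  funext i
  rw [ray_val]
  simp

lemma val_nonneg {k : ℕ} (t : Simplex k) (i : Fin (k + 1)) : 0 ≤ t.1 i := t.2.1 i

lemma val_le_one {k : ℕ} (t : Simplex k) (i : Fin (k + 1)) : t.1 i ≤ 1 := stdSimplex.le_one t i

lemma dist_ray_le {k : ℕ} (s s' : unitInterval) (t : Simplex k) :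
    dist (ray s t) (ray s' t) ≤ |(s : ℝ) - s'| := by
  rw [Subtype.dist_eq, dist_pi_le_iff (abs_nonneg _)]
  intro i
  have h1 := val_nonneg t i
  have h2 := val_le_one t i
  have h3 := val_nonneg (vtx k 0) i
  have h4 := val_le_one (vtx k 0) i
  rw [Real.dist_eq, ray_val, ray_val]
  have : (1 - (s : ℝ)) * (vtx k 0).1 i + (s : ℝ) * t.1 i -
      ((1 - (s' : ℝ)) * (vtx k 0).1 i + (s' : ℝ) * t.1 i)
      = ((s : ℝ) - s') * (t.1 i - (vtx k 0).1 i) := by
    ring
  rw [this, abs_mul]
  refine mul_le_of_le_one_right (abs_nonneg _) ?_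
  rw [abs_le]
  constructor <;> linarith

/-- Every singular simplex of the projective space lifts to the sphere. -/
theorem exists_lift {k : ℕ} (σ : C(Simplex k, Proj E)) :
    ∃ f : C(Simplex k, Sph E), ∀ t, pr (f t) = σ t := by
  -- the set of pairs of nonorthogonal lines
  let W : Set (Proj E × Proj E) := (Prod.map pr pr) '' {p : Sph E × Sph E | ⟪(p.2 : E), (p.1 : E)⟫_ℂ ≠ 0}
  have hWo : IsOpen W := by
    refine (IsOpenQuotientMap.prodMap isOpenQuotientMap_pr isOpenQuotientMap_pr).isOpenMap _ ?_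
    exact isOpen_ne_fun (by fun_prop) continuous_const
  have hWd : ∀ x : Proj E, (x, x) ∈ W := by
    intro x
    obtain ⟨u, rfl⟩ := pr_surjective x
    refine ⟨(u, u), ?_, rfl⟩
    simp [inner_self_eq_norm_sq_to_K]
  have hW : ∀ (u : Sph E) (x : Proj E), (pr u, x) ∈ W → lineProj u x ≠ 0 := by
    rintro u x ⟨⟨u', v⟩, h1, h2⟩
    simp only [Prod.map_apply, Prod.mk.injEq] at h2
    obtain ⟨h2, rfl⟩ := h2
    obtain ⟨z, hz⟩ := pr_eq_iff.1 h2
    rw [lineProj_pr]
    refine smul_ne_zero ?_ ?_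
    · rw [← hz, inner_smul_right]
      exact mul_ne_zero (Circle.coe_ne_zero z) h1
    · intro h0
      have := norm_coe v
      rw [h0, norm_zero] at this
      exact zero_ne_one this
  let R : Set (Simplex k × Simplex k) := (fun p => (σ p.1, σ p.2)) ⁻¹' W
  have hRo : IsOpen R := hWo.preimage (by fun_prop)
  have hRu : R ∈ uniformity (Simplex k) := by
    rw [← nhdsSet_diagonal_eq_uniformity]
    refine hRo.mem_nhdsSet.2 ?_
    rintro ⟨a, b⟩ hab
    have : a = b := hab
    subst this
    exact hWd _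
  obtain ⟨δ, hδ, hδR⟩ := Metric.mem_uniformity_dist.1 hRu
  obtain ⟨N, hN⟩ := exists_nat_gt (1 / δ)
  have hNpos : (0 : ℝ) < N := lt_trans (by positivity) hN
  have hN' : 1 / (N : ℝ) < δ := by
    rw [div_lt_iff₀ hNpos]
    rw [div_lt_iff₀ hδ] at hN
    linarith
  have main : ∀ j : ℕ, ∀ hj : j ≤ N, ∃ f : C(Simplex k, Sph E), ∀ t,
      pr (f t) = σ (ray ⟨(j : ℝ) / N, by positivity, by
        rw [div_le_one hNpos]; exact_mod_cast hj⟩ t) := by
    intro j
    induction j with
    | zero =>
      intro hj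
      obtain ⟨u, hu⟩ := pr_surjective (σ (vtx k 0))
      refine ⟨ContinuousMap.const _ u, fun t => ?_⟩
      have : (⟨((0 : ℕ) : ℝ) / N, by positivity, by
        rw [div_le_one hNpos]; exact_mod_cast hj⟩ : unitInterval) = 0 := by
        apply Subtype.ext
        simp
      rw [this, ray_zero]
      exact hu
    | succ j ih =>
      intro hj
      obtain ⟨f, hf⟩ := ih (by omega)
      refine exists_step f (σ.comp (ray _)) ?_
      intro t
      apply hW
      rw [hf t]
      refine hδR ?_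
      refine lt_of_le_of_lt (dist_ray_le _ _ t) ?_
      simp only
      have : ((j : ℕ) : ℝ) / N - ((j + 1 : ℕ) : ℝ) / N = -(1 / N) := by
        push_cast
        ring
      rw [this, abs_neg, abs_of_pos (by positivity)]
      exact hN'
  obtain ⟨f, hf⟩ := main N le_rfl
  refine ⟨f, fun t => ?_⟩
  rw [hf t]
  congr 1
  have : (⟨(N : ℝ) / N, by positivity, by
        rw [div_le_one hNpos]⟩ : unitInterval) = 1 := by
    apply Subtype.ext
    simp [hNpos.ne']
  rw [this, ray_one]


/-! ### The ratio of two lifts, and its winding -/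

/-- The phase by which two lifts of the same simplex differ. -/
def ratio {k : ℕ} (a b : C(Simplex k, Sph E)) (h : ∀ t, pr (a t) = pr (b t)) :
    C(Simplex k, Circle) :=
  ⟨fun t => ⟨⟪(a t : E), (b t : E)⟫_ℂ, by
      obtain ⟨z, hz⟩ := pr_eq_iff.1 (h t)
      refine mem_sphere_zero_iff_norm.2 ?_
      rw [← hz, inner_smul_right, norm_mul, Circle.norm_coe, one_mul, inner_self_eq_norm_sq_to_K,
        norm_coe]
      simp⟩,
    by
      refine Continuous.subtype_mk ?_ _
      fun_prop⟩

lemma ratio_coe {k : ℕ} (a b : C(Simplex k, Sph E)) (h : ∀ t, pr (a t) = pr (b t))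
    (t : Simplex k) : ((ratio a b h t : Circle) : ℂ) = ⟪(a t : E), (b t : E)⟫_ℂ := rfl

lemma ratio_spec {k : ℕ} (a b : C(Simplex k, Sph E)) (h : ∀ t, pr (a t) = pr (b t))
    (t : Simplex k) : ((ratio a b h t : Circle) : ℂ) • (a t : E) = (b t : E) := by
  obtain ⟨z, hz⟩ := pr_eq_iff.1 (h t)
  rw [ratio_coe, ← hz, inner_smul_right, inner_self_eq_norm_sq_to_K, norm_coe]
  simp

lemma ratio_mul {k : ℕ} (a b c : C(Simplex k, Sph E)) (h : ∀ t, pr (a t) = pr (b t))
    (h' : ∀ t, pr (b t) = pr (c t)) :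
    ratio a b h * ratio b c h' = ratio a c (fun t => (h t).trans (h' t)) := by
  ext t
  rw [ContinuousMap.mul_apply, Circle.coe_mul, ratio_coe a c, ← ratio_spec b c h',
    ← ratio_spec a b h, inner_smul_right, inner_smul_right, inner_self_eq_norm_sq_to_K, norm_coe]
  simp [mul_comm]

open Classical in
/-- The change of phase between two lifts of the same singular `1`-simplex. -/
def wind (a b : C(Simplex 1, Sph E)) : ℝ :=
  if h : ∀ t, pr (a t) = pr (b t) then dArg (ratio a b h) else 0

lemma wind_eq (a b : C(Simplex 1, Sph E)) (h : ∀ t, pr (a t) = pr (b t)) :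
    wind a b = dArg (ratio a b h) := dif_pos h

lemma wind_trans (a b c : C(Simplex 1, Sph E)) (h : ∀ t, pr (a t) = pr (b t))
    (h' : ∀ t, pr (b t) = pr (c t)) : wind a c = wind a b + wind b c := by
  rw [wind_eq a b h, wind_eq b c h', wind_eq a c (fun t => (h t).trans (h' t)), ← dArg_mul,
    ratio_mul]

lemma wind_face_sum (A B : C(Simplex 2, Sph E)) (h : ∀ t, pr (A t) = pr (B t)) :
    ∑ i : Fin 3, (-1 : ℝ) ^ (i : ℕ) * wind (A.comp (face i)) (B.comp (face i)) = 0 := by
  rw [← dArg_face_sum (ratio A B h)]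
  refine Finset.sum_congr rfl fun i _ => ?_
  rw [wind_eq (A.comp (face i)) (B.comp (face i)) (fun t => h _)]
  rfl

/-! ### The cocycle -/

/-- A chosen lift of a singular simplex of the projective space. -/
def lift {k : ℕ} (σ : C(Simplex k, Proj E)) : C(Simplex k, Sph E) := (exists_lift σ).choose

lemma pr_lift {k : ℕ} (σ : C(Simplex k, Proj E)) (t : Simplex k) : pr (lift σ t) = σ t :=
  (exists_lift σ).choose_spec t

/-- The winding cochain with real values. -/
def rc (σ : C(Simplex 2, Proj E)) : ℝ :=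
  ∑ i : Fin 3, (-1 : ℝ) ^ (i : ℕ) * wind (lift (σ.comp (face i))) ((lift σ).comp (face i))

lemma rc_eq (σ : C(Simplex 2, Proj E)) (A : C(Simplex 2, Sph E)) (hA : ∀ t, pr (A t) = σ t) :
    rc σ = ∑ i : Fin 3, (-1 : ℝ) ^ (i : ℕ) * wind (lift (σ.comp (face i))) (A.comp (face i)) := by
  have h0 := wind_face_sum (lift σ) A (fun t => by rw [pr_lift, hA])
  have h1 : ∀ i : Fin 3, wind (lift (σ.comp (face i))) (A.comp (face i)) =
      wind (lift (σ.comp (face i))) ((lift σ).comp (face i)) +
        wind ((lift σ).comp (face i)) (A.comp (face i)) := by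
    intro i
    refine wind_trans _ _ _ (fun t => ?_) (fun t => ?_)
    · rw [pr_lift, ContinuousMap.comp_apply, ContinuousMap.comp_apply, pr_lift]
    · rw [ContinuousMap.comp_apply, ContinuousMap.comp_apply, pr_lift, hA]
  simp only [h1, mul_add, Finset.sum_add_distrib, h0, add_zero]
  rfl

lemma rc_cocycle (τ : C(Simplex 3, Proj E)) :
    ∑ j : Fin 4, (-1 : ℝ) ^ (j : ℕ) * rc (τ.comp (face j)) = 0 := by
  have h1 : ∀ j : Fin 4, rc (τ.comp (face j)) = ∑ i : Fin 3, (-1 : ℝ) ^ (i : ℕ) *
      wind (lift (τ.comp ((face j).comp (face i)))) ((lift τ).comp ((face j).comp (face i))) := by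
    intro j
    rw [rc_eq (τ.comp (face j)) ((lift τ).comp (face j)) (fun t => pr_lift _ _)]
    rfl
  have e10 : (face (1 : Fin 4)).comp (face (0 : Fin 3)) = (face (0 : Fin 4)).comp (face (0 : Fin 3)) :=
    face_comp_face_eq (k := 1) (by decide)
  have e20 : (face (2 : Fin 4)).comp (face (0 : Fin 3)) = (face (0 : Fin 4)).comp (face (1 : Fin 3)) :=
    face_comp_face_eq (k := 1) (by decide)
  have e30 : (face (3 : Fin 4)).comp (face (0 : Fin 3)) = (face (0 : Fin 4)).comp (face (2 : Fin 3)) :=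
    face_comp_face_eq (k := 1) (by decide)
  have e21 : (face (2 : Fin 4)).comp (face (1 : Fin 3)) = (face (1 : Fin 4)).comp (face (1 : Fin 3)) :=
    face_comp_face_eq (k := 1) (by decide)
  have e31 : (face (3 : Fin 4)).comp (face (1 : Fin 3)) = (face (1 : Fin 4)).comp (face (2 : Fin 3)) :=
    face_comp_face_eq (k := 1) (by decide)
  have e32 : (face (3 : Fin 4)).comp (face (2 : Fin 3)) = (face (2 : Fin 4)).comp (face (2 : Fin 3)) :=
    face_comp_face_eq (k := 1) (by decide)
  simp only [h1, Fin.sum_univ_four, Fin.sum_univ_three, e10, e20, e30, e21, e31, e32]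
  simp
  ring


/-! ### The rational cocycle -/

/-- A rational-linear retraction of the reals to the rationals. -/
lemma exists_retraction : ∃ p : ℝ →ₗ[ℚ] ℚ, p 1 = 1 := by
  have hinj : LinearMap.ker (LinearMap.toSpanSingleton ℚ ℝ (1 : ℝ)) = ⊥ := by
    rw [LinearMap.ker_eq_bot]
    intro a b hab
    simp only [LinearMap.toSpanSingleton_apply, Rat.smul_one_eq_cast] at hab
    exact_mod_cast hab
  obtain ⟨p, hp⟩ := LinearMap.exists_leftInverse_of_injective _ hinj
  refine ⟨p, ?_⟩
  have := LinearMap.congr_fun hp 1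
  simpa using this

/-- The chosen retraction. -/
def retr : ℝ →ₗ[ℚ] ℚ := exists_retraction.choose

lemma retr_one : retr 1 = 1 := exists_retraction.choose_spec

/-- The rational winding cocycle on the projective space. -/
def qc : Cochain 2 (Proj E) := fun σ => retr (rc σ / (2 * Real.pi))

/-- Its primitive on the sphere. -/
def qprim : Cochain 1 (Sph E) := fun a => retr (wind (lift (pr.comp a)) a / (2 * Real.pi))

lemma retr_sign (n : ℕ) (x : ℝ) : retr ((-1 : ℝ) ^ n * x) = (-1 : ℚ) ^ n * retr x := by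
  rcases neg_one_pow_eq_or ℝ n with h | h
  · have h' : (-1 : ℚ) ^ n = 1 := by exact_mod_cast h
    rw [h, h']; simp
  · have h' : (-1 : ℚ) ^ n = -1 := by exact_mod_cast h
    rw [h, h']; simp

lemma qc_cocycle : coboundary 2 (Proj E) qc = 0 := by
  funext τ
  have h := rc_cocycle τ
  show ∑ j : Fin 4, (-1 : ℚ) ^ (j : ℕ) * retr (rc (τ.comp (face j)) / (2 * Real.pi)) = 0
  have : ∀ j : Fin 4, (-1 : ℚ) ^ (j : ℕ) * retr (rc (τ.comp (face j)) / (2 * Real.pi)) =
      retr (((-1 : ℝ) ^ (j : ℕ) * rc (τ.comp (face j))) / (2 * Real.pi)) := by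
    intro j
    rw [mul_div_assoc, retr_sign]
  simp only [this]
  rw [← map_sum, ← Finset.sum_div, h, zero_div, map_zero]

lemma qc_pr (A : C(Simplex 2, Sph E)) : qc (pr.comp A) = coboundary 1 (Sph E) qprim A := by
  have h := rc_eq (pr.comp A) A (fun t => rfl)
  show retr (rc (pr.comp A) / (2 * Real.pi)) = ∑ i : Fin 3, (-1 : ℚ) ^ (i : ℕ) *
    retr (wind (lift (pr.comp (A.comp (face i)))) (A.comp (face i)) / (2 * Real.pi))
  rw [h, Finset.sum_div, map_sum]
  refine Finset.sum_congr rfl fun i _ => ?_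
  rw [mul_div_assoc, retr_sign]
  rfl

lemma qc_sub (A B : C(Simplex 2, Sph E))
    (h : ∀ i : Fin 3, ∀ t, pr (A (face i t)) = pr (B (face i t)))
    (hw : ∑ i : Fin 3, (-1 : ℝ) ^ (i : ℕ) * wind (A.comp (face i)) (B.comp (face i)) =
      2 * Real.pi) : qc (pr.comp B) - qc (pr.comp A) = 1 := by
  have hAB : ∀ i : Fin 3, (pr.comp A).comp (face i) = (pr.comp B).comp (face i) := by
    intro i
    ext1 t
    exact h i t
  have h1 := rc_eq (pr.comp A) A (fun t => rfl)
  have h2 := rc_eq (pr.comp B) B (fun t => rfl)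
  have h3 : ∀ i : Fin 3, wind (lift ((pr.comp B).comp (face i))) (B.comp (face i)) =
      wind (lift ((pr.comp A).comp (face i))) (A.comp (face i)) +
        wind (A.comp (face i)) (B.comp (face i)) := by
    intro i
    rw [← hAB i]
    refine wind_trans _ _ _ (fun t => ?_) (fun t => h i t)
    rw [pr_lift]
    rfl
  have h4 : rc (pr.comp B) - rc (pr.comp A) = 2 * Real.pi := by
    rw [h1, h2]
    simp only [h3, mul_add, Finset.sum_add_distrib]
    rw [hw]
    ring
  show retr (rc (pr.comp B) / (2 * Real.pi)) - retr (rc (pr.comp A) / (2 * Real.pi)) = 1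
  rw [← map_sub, ← sub_div, h4, div_self (by positivity), retr_one]

end Sphere

end Pool.Agent.Lib.Pc41d74
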